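import Mathlib
import Pool.Agent.K1H6.ColA

set_option autoImplicit false

open Filter Topology Finset

namespace Pool.Agent.K1H6.Col

/-- the Collatz map -/
def Co (n : ℕ) : ℕ := if n % 2 = 0 then n / 2 else 3 * n + 1

/-- at most `B X ^ κ` elements in every interval of length `X ≥ 1` -/
def Sp (κ B : ℝ) (Q : ℕ → Prop) : Prop :=
  ∀ X : ℝ, 1 ≤ X → ∀ u : ℕ, ∀ F : Finset ℕ, (∀ m ∈ F, Q m ∧ u < m ∧ (m : ℝ) ≤ u + X) →
    (F.card : ℝ) ≤ B * X ^ κ

/-- the general form of the theorem -/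
def Gen (κ A C : ℝ) : Prop := ∀ X : ℝ, 1 ≤ X → ∀ u : ℕ, ∀ S : Finset ℕ,
      (∀ n ∈ S, u < n ∧ (n : ℝ) ≤ u + X) →
      (∀ k : ℕ, (k : ℝ) ≤ A * (1 + Real.log X) → Set.InjOn (T^[k]) (S : Set ℕ)) →
      (S.card : ℝ) ≤ C * X ^ κ

lemma per_iter {x : ℕ} (h : x ∈ Function.periodicPts T) (r : ℕ) : T^[r] x ∈ Function.periodicPts T :=
  ((Function.bijOn_periodicPts T).mapsTo.iterate r) h

lemma per_inj (k : ℕ) : Set.InjOn (T^[k]) (Function.periodicPts T) :=
  ((Function.bijOn_periodicPts T).iterate k).injOn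

/-- periodic points of the shortcut map -/
lemma sp_per {κ A C : ℝ} (h : Gen κ A C) : Sp κ C (fun m => m ∈ Function.periodicPts T) := by
  intro X hX u F hF
  apply h X hX u F (fun m hm => (hF m hm).2)
  intro k _
  exact (per_inj k).mono (fun m hm => (hF m hm).1)

/-- trajectories of the shortcut map -/
lemma sp_traj {κ A C : ℝ} (hκ : 0 < κ) (hA : 0 < A) (hC : 0 < C) (h : Gen κ A C) (n : ℕ) :
    Sp κ (2 * C + A * (1 + 1 / κ)) (fun m => ∃ k, T^[k] n = m) := by
  classical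
  intro X hX u F hF
  set K := ⌊A * (1 + Real.log X)⌋₊ with hK
  have hlog0 : 0 ≤ Real.log X := Real.log_nonneg hX
  have hKle : (K : ℝ) ≤ A * (1 + Real.log X) := Nat.floor_le (by positivity)
  have hkK : ∀ k : ℕ, (k : ℝ) ≤ A * (1 + Real.log X) → k ≤ K := fun k hk => Nat.le_floor hk
  set P := Function.periodicPts T with hP
  set S₃ := F.filter (fun m => m ∈ P) with hS₃
  set R := F.filter (fun m => ¬ m ∈ P) with hR
  set S₂ := R.filter (fun m => T^[K] m ∈ P) with hS₂
  set S₁ := R.filter (fun m => ¬ T^[K] m ∈ P) with hS₁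
  have e1 : F.card = S₃.card + R.card := (Finset.card_filter_add_card_filter_not _).symm
  have e2 : R.card = S₂.card + S₁.card := (Finset.card_filter_add_card_filter_not _).symm
  have mem1 : ∀ m ∈ S₁, m ∈ F ∧ m ∉ P ∧ T^[K] m ∉ P := by
    intro m hm
    rw [hS₁, Finset.mem_filter, hR, Finset.mem_filter] at hm
    exact ⟨hm.1.1, hm.1.2, hm.2⟩
  have mem2 : ∀ m ∈ S₂, m ∈ F ∧ m ∉ P ∧ T^[K] m ∈ P := by
    intro m hm
    rw [hS₂, Finset.mem_filter, hR, Finset.mem_filter] at hm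
    exact ⟨hm.1.1, hm.1.2, hm.2⟩
  have h3 : (S₃.card : ℝ) ≤ C * X ^ κ := by
    apply sp_per h X hX u
    intro m hm
    rw [hS₃, Finset.mem_filter] at hm
    exact ⟨hm.2, (hF m hm.1).2⟩
  have key : ∀ i j k : ℕ, k ≤ K → i < j → T^[K] (T^[i] n) ∉ P →
      T^[k] (T^[i] n) = T^[k] (T^[j] n) → False := by
    intro i j k hk hij hnp heq
    apply hnp
    have h1 : T^[k] (T^[i] n) ∈ P := by
      apply Function.mk_mem_periodicPts (n := j - i) (by omega)
      rw [Function.IsPeriodicPt, Function.IsFixedPt]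
      calc T^[j - i] (T^[k] (T^[i] n)) = T^[(j - i) + (k + i)] n := by
            rw [Function.iterate_add_apply, Function.iterate_add_apply]
        _ = T^[k + j] n := by rw [show (j - i) + (k + i) = k + j by omega]
        _ = T^[k] (T^[j] n) := Function.iterate_add_apply _ _ _ _
        _ = T^[k] (T^[i] n) := heq.symm
    have h2 := per_iter h1 (K - k)
    rw [← Function.iterate_add_apply] at h2
    rwa [show K - k + k = K by omega] at h2
  have h1 : (S₁.card : ℝ) ≤ C * X ^ κ := by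
    apply h X hX u S₁ (fun m hm => (hF m (mem1 m hm).1).2)
    intro k hk x hx y hy hxy
    obtain ⟨i, hi⟩ := (hF x (mem1 x hx).1).1
    obtain ⟨j, hj⟩ := (hF y (mem1 y hy).1).1
    subst hi
    subst hj
    rcases lt_trichotomy i j with hij | hij | hij
    · exact (key i j k (hkK k hk) hij (mem1 _ hx).2.2 hxy).elim
    · rw [hij]
    · exact (key j i k (hkK k hk) hij (mem1 _ hy).2.2 hxy.symm).elim
  have h2 : (S₂.card : ℝ) ≤ K := by
    rcases S₂.eq_empty_or_nonempty with he | ⟨m₀, hm₀⟩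
    · rw [he]; simp
    · have hex : ∃ p, T^[p] n ∈ P := by
        obtain ⟨i, hi⟩ := (hF m₀ (mem2 m₀ hm₀).1).1
        refine ⟨K + i, ?_⟩
        rw [Function.iterate_add_apply, hi]
        exact (mem2 m₀ hm₀).2.2
      set p := Nat.find hex with hp
      have hpP : T^[p] n ∈ P := Nat.find_spec hex
      have hsub : S₂ ⊆ (Finset.Ico (p - K) p).image (fun i => T^[i] n) := by
        intro m hm
        obtain ⟨i, hi⟩ := (hF m (mem2 m hm).1).1
        have g1 : i < p := by
          by_contra hcon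
          push Not at hcon
          apply (mem2 m hm).2.1
          rw [← hi]
          have := per_iter hpP (i - p)
          rw [← Function.iterate_add_apply] at this
          rwa [show i - p + p = i by omega] at this
        have g2 : p ≤ K + i := by
          apply Nat.find_min' hex
          rw [Function.iterate_add_apply, hi]
          exact (mem2 m hm).2.2
        rw [Finset.mem_image]
        exact ⟨i, by rw [Finset.mem_Ico]; omega, hi⟩
      have : S₂.card ≤ K := by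
        calc S₂.card ≤ _ := Finset.card_le_card hsub
          _ ≤ (Finset.Ico (p - K) p).card := Finset.card_image_le
          _ ≤ K := by rw [Nat.card_Ico]; omega
      exact_mod_cast this
  have h4 : (K : ℝ) ≤ A * (1 + 1 / κ) * X ^ κ := by
    have g1 : Real.log X ≤ X ^ κ / κ := Real.log_le_rpow_div (by linarith) hκ
    have g2 : 1 ≤ X ^ κ := Real.one_le_rpow hX hκ.le
    calc (K : ℝ) ≤ A * (1 + Real.log X) := hKle
      _ ≤ A * (X ^ κ + X ^ κ / κ) := by gcongr
      _ = A * (1 + 1 / κ) * X ^ κ := by ring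
  have e3 : (F.card : ℝ) = S₃.card + (S₂.card + S₁.card) := by
    rw [e1, e2]; push_cast; ring
  rw [e3]
  nlinarith

lemma Co_even {x : ℕ} (h : x % 2 = 0) : Co x = x / 2 := by unfold Co; rw [if_pos h]
lemma Co_odd {x : ℕ} (h : x % 2 = 1) : Co x = 3 * x + 1 := by unfold Co; rw [if_neg (by omega)]
lemma Tn_even {x : ℕ} (h : x % 2 = 0) : T x = x / 2 := by unfold T; rw [if_pos h]
lemma Tn_odd {x : ℕ} (h : x % 2 = 1) : T x = (3 * x + 1) / 2 := by unfold T; rw [if_neg (by omega)]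

lemma Co_pos {x : ℕ} (h : 1 ≤ x) : 1 ≤ Co x := by
  rcases Nat.mod_two_eq_zero_or_one x with h1 | h1
  · rw [Co_even h1]; omega
  · rw [Co_odd h1]; omega

lemma Co_iter_pos {x : ℕ} (h : 1 ≤ x) (k : ℕ) : 1 ≤ Co^[k] x := by
  induction k with
  | zero => exact h
  | succ k ih => rw [Function.iterate_succ_apply']; exact Co_pos ih

/-- from the shortcut map to the Collatz map -/
lemma transfer {κ B : ℝ} (hκ0 : 0 < κ) (hκ1 : κ ≤ 1) (hB : 0 < B) {Q Q' : ℕ → Prop} (hQ : Sp κ B Q)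
    (h : ∀ m, Q' m → Q m ∨ ∃ x, x % 2 = 1 ∧ Q x ∧ m = 3 * x + 1) : Sp κ (3 * B) Q' := by
  classical
  intro X hX u F hF
  set F₁ := F.filter (fun m => Q m) with hF₁
  set F₂ := F.filter (fun m => ¬ Q m) with hF₂
  have e1 : F.card = F₁.card + F₂.card := (Finset.card_filter_add_card_filter_not _).symm
  have h1 : (F₁.card : ℝ) ≤ B * X ^ κ := by
    apply hQ X hX u
    intro m hm
    rw [hF₁, Finset.mem_filter] at hm
    exact ⟨hm.2, (hF m hm.1).2⟩
  have mem2 : ∀ m ∈ F₂, m ∈ F ∧ ∃ x, x % 2 = 1 ∧ Q x ∧ m = 3 * x + 1 := by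
    intro m hm
    rw [hF₂, Finset.mem_filter] at hm
    refine ⟨hm.1, ?_⟩
    rcases h m (hF m hm.1).1 with h2 | h2
    · exact absurd h2 hm.2
    · exact h2
  have hcard : (F₂.image (fun m => (m - 1) / 3)).card = F₂.card := by
    apply Finset.card_image_of_injOn
    intro a ha b hb hab
    obtain ⟨_, x, _, _, hx⟩ := mem2 a ha
    obtain ⟨_, y, _, _, hy⟩ := mem2 b hb
    simp only at hab
    omega
  have h2 : (F₂.card : ℝ) ≤ B * (X + 1) ^ κ := by
    rw [← hcard]
    apply hQ (X + 1) (by linarith) ((u - 1) / 3)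
    intro m hm
    rw [Finset.mem_image] at hm
    obtain ⟨a, ha, rfl⟩ := hm
    obtain ⟨haF, x, hx1, hx2, hx3⟩ := mem2 a ha
    have hxa : (a - 1) / 3 = x := by omega
    rw [hxa]
    obtain ⟨_, h3, h4⟩ := hF a haF
    refine ⟨hx2, by omega, ?_⟩
    have h5 : (u : ℝ) ≤ 3 * ((u - 1) / 3 : ℕ) + 3 := by
      have : u ≤ 3 * ((u - 1) / 3) + 3 := by omega
      exact_mod_cast this
    rw [hx3] at h4
    push_cast at h4
    linarith
  have h3 : (X + 1) ^ κ ≤ 2 * X ^ κ := by
    calc (X + 1) ^ κ ≤ (2 * X) ^ κ := by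
          apply Real.rpow_le_rpow (by linarith) (by linarith) hκ0.le
      _ = 2 ^ κ * X ^ κ := by rw [Real.mul_rpow (by norm_num) (by linarith)]
      _ ≤ 2 ^ (1 : ℝ) * X ^ κ := by
          gcongr
          norm_num
      _ = 2 * X ^ κ := by norm_num
  have e2 : (F.card : ℝ) = F₁.card + F₂.card := by exact_mod_cast e1
  rw [e2]
  calc (F₁.card : ℝ) + F₂.card ≤ B * X ^ κ + B * (X + 1) ^ κ := add_le_add h1 h2
    _ ≤ B * X ^ κ + B * (2 * X ^ κ) := by gcongr
    _ = 3 * B * X ^ κ := by ring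

lemma co_T (n : ℕ) : ∀ k : ℕ, ∃ j : ℕ, Co^[k] n = T^[j] n ∨
    (T^[j] n % 2 = 1 ∧ Co^[k] n = 3 * T^[j] n + 1) := by
  intro k
  induction k with
  | zero => exact ⟨0, Or.inl rfl⟩
  | succ k ih =>
    obtain ⟨j, hj⟩ := ih
    rw [Function.iterate_succ_apply']
    rcases hj with hj | ⟨h1, h2⟩
    · rw [hj]
      rcases Nat.mod_two_eq_zero_or_one (T^[j] n) with h | h
      · exact ⟨j + 1, Or.inl (by rw [Function.iterate_succ_apply', Co_even h, Tn_even h])⟩
      · exact ⟨j, Or.inr ⟨h, Co_odd h⟩⟩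
    · refine ⟨j + 1, Or.inl ?_⟩
      rw [h2, Function.iterate_succ_apply', Co_even (by omega), Tn_odd h1]

/-- trajectories of the Collatz map -/
lemma sp_traj_co {κ B : ℝ} (hκ0 : 0 < κ) (hκ1 : κ ≤ 1) (hB : 0 < B)
    (h : ∀ n, Sp κ B (fun m => ∃ k, T^[k] n = m)) (n : ℕ) :
    Sp κ (3 * B) (fun m => ∃ k, Co^[k] n = m) := by
  apply transfer hκ0 hκ1 hB (h n)
  rintro m ⟨k, hk⟩
  obtain ⟨j, hj⟩ := co_T n k
  rcases hj with hj | ⟨h1, h2⟩
  · left; exact ⟨j, by rw [← hj, hk]⟩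
  · right; exact ⟨T^[j] n, h1, ⟨j, rfl⟩, by rw [← hk, h2]⟩

/-- the periodic points of the Collatz map which are not the successor of an odd one -/
def Z : Set ℕ := {z | z ∈ Function.periodicPts Co ∧
  ∀ w, w % 2 = 1 → w ∈ Function.periodicPts Co → z ≠ 3 * w + 1}

lemma perC {x : ℕ} (h : x ∈ Function.periodicPts Co) : Co x ∈ Function.periodicPts Co :=
  (Function.bijOn_periodicPts Co).mapsTo h

lemma perC_inj {x y : ℕ} (hx : x ∈ Function.periodicPts Co) (hy : y ∈ Function.periodicPts Co)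
    (h : Co x = Co y) : x = y := (Function.bijOn_periodicPts Co).injOn hx hy h

lemma Z_maps : Set.MapsTo T Z Z := by
  intro z hz
  obtain ⟨h1, h2⟩ := hz
  rcases Nat.mod_two_eq_zero_or_one z with h | h
  · have e : T z = Co z := by rw [Tn_even h, Co_even h]
    rw [e]
    refine ⟨perC h1, fun w hw1 hw2 heq => ?_⟩
    have h3 : z = w := perC_inj h1 hw2 (by rw [heq, Co_odd hw1])
    omega
  · have e : T z = Co (Co z) := by
      rw [Tn_odd h, Co_odd h, Co_even (by omega)]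
    rw [e]
    refine ⟨perC (perC h1), fun w hw1 hw2 heq => ?_⟩
    have h3 : Co z = w := perC_inj (perC h1) hw2 (by rw [heq, Co_odd hw1])
    rw [Co_odd h] at h3
    omega

lemma Z_inj : Set.InjOn T Z := by
  intro z hz w hw h
  rcases Nat.mod_two_eq_zero_or_one z with h1 | h1 <;> rcases Nat.mod_two_eq_zero_or_one w with h2 | h2
  · rw [Tn_even h1, Tn_even h2] at h; omega
  · rw [Tn_even h1, Tn_odd h2] at h
    exact absurd (by omega : z = 3 * w + 1) (hz.2 w h2 hw.1)
  · rw [Tn_odd h1, Tn_even h2] at h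
    exact absurd (by omega : w = 3 * z + 1) (hw.2 z h1 hz.1)
  · rw [Tn_odd h1, Tn_odd h2] at h; omega

lemma T_co (n : ℕ) : ∀ j : ℕ, ∃ k : ℕ, T^[j] n = Co^[k] n := by
  intro j
  induction j with
  | zero => exact ⟨0, rfl⟩
  | succ j ih =>
    obtain ⟨k, hk⟩ := ih
    rw [Function.iterate_succ_apply']
    rcases Nat.mod_two_eq_zero_or_one (T^[j] n) with h | h
    · exact ⟨k + 1, by rw [Function.iterate_succ_apply', ← hk, Co_even h, Tn_even h]⟩
    · exact ⟨k + 2, by
        rw [Function.iterate_succ_apply', Function.iterate_succ_apply', ← hk, Co_odd h,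
          Co_even (by omega), Tn_odd h]⟩

lemma Z_per {z : ℕ} (hz : z ∈ Z) : z ∈ Function.periodicPts T := by
  obtain ⟨q, hq, hper⟩ := hz.1
  have hfin : (Set.range (fun j => T^[j] z)).Finite := by
    apply ((Finset.range q).image (fun i => Co^[i] z)).finite_toSet.subset
    rintro _ ⟨j, rfl⟩
    obtain ⟨k, hk⟩ := T_co z j
    simp only [Finset.coe_image, Set.mem_image, Finset.coe_range, Set.mem_Iio]
    exact ⟨k % q, Nat.mod_lt _ hq, by rw [hk, hper.iterate_mod_apply]⟩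
  have hninj : ¬ Function.Injective (fun j => T^[j] z) := by
    intro hinj
    exact Set.infinite_range_of_injective hinj hfin
  rw [Function.Injective] at hninj
  push Not at hninj
  obtain ⟨i, j, h1, h2⟩ := hninj
  wlog hij : i < j generalizing i j
  · exact this j i h1.symm (Ne.symm h2) (by omega)
  have h3 : T^[i] z = T^[i] (T^[j - i] z) := by
    rw [← Function.iterate_add_apply, show i + (j - i) = j by omega]
    exact h1
  have h4 : T^[j - i] z ∈ Z := (Z_maps.iterate (j - i)) hz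
  have h5 := (Z_inj.iterate Z_maps i) hz h4 h3
  exact Function.mk_mem_periodicPts (n := j - i) (by omega) h5.symm

/-- periodic points of the Collatz map -/
lemma sp_per_co {κ B : ℝ} (hκ0 : 0 < κ) (hκ1 : κ ≤ 1) (hB : 0 < B)
    (h : Sp κ B (fun m => m ∈ Function.periodicPts T)) :
    Sp κ (3 * B) (fun m => m ∈ Function.periodicPts Co) := by
  apply transfer hκ0 hκ1 hB h
  intro m hm
  by_cases hmZ : m ∈ Z
  · left; exact Z_per hmZ
  · right
    have : ∃ w, w % 2 = 1 ∧ w ∈ Function.periodicPts Co ∧ m = 3 * w + 1 := by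
      by_contra hcon
      push Not at hcon
      exact hmZ ⟨hm, fun w h1 h2 => hcon w h1 h2⟩
    obtain ⟨w, h1, h2, h3⟩ := this
    refine ⟨w, h1, Z_per ⟨h2, fun v hv1 _ heq => ?_⟩, h3⟩
    omega

/-- sums of reciprocals -/
lemma recip {κ B : ℝ} (hκ1 : κ < 1) (hB : 0 < B) {Q : ℕ → Prop} (hQ : Sp κ B Q) (F : Finset ℕ)
    (hF : ∀ m ∈ F, Q m ∧ 1 ≤ m) : ∑ m ∈ F, (1 : ℝ) / m ≤ B * (1 - 2 ^ (κ - 1))⁻¹ := by
  classical
  set r : ℝ := 2 ^ (κ - 1) with hr
  have hr0 : 0 < r := by positivity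
  have hr1 : r < 1 := by
    rw [hr]
    exact Real.rpow_lt_one_of_one_lt_of_neg (by norm_num) (by linarith)
  set J := F.sup (fun m => Nat.log 2 m) + 1 with hJ
  have hmaps : ∀ m ∈ F, Nat.log 2 m ∈ Finset.range J := by
    intro m hm
    rw [Finset.mem_range, hJ]
    have := Finset.le_sup (f := fun m => Nat.log 2 m) hm
    omega
  rw [← Finset.sum_fiberwise_of_maps_to hmaps]
  have hj : ∀ j ∈ Finset.range J, ∑ m ∈ F.filter (fun m => Nat.log 2 m = j), (1 : ℝ) / m ≤ B * r ^ j := by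
    intro j _
    have hmem : ∀ m ∈ F.filter (fun m => Nat.log 2 m = j), Q m ∧ 2 ^ j ≤ m ∧ m < 2 ^ (j + 1) := by
      intro m hm
      rw [Finset.mem_filter] at hm
      obtain ⟨h1, h2⟩ := hm
      have h3 := (hF m h1).2
      refine ⟨(hF m h1).1, ?_, ?_⟩
      · rw [← h2]; exact Nat.pow_log_le_self 2 (by omega)
      · rw [← h2]; exact Nat.lt_pow_succ_log_self (by norm_num) m
    have hcard : ((F.filter (fun m => Nat.log 2 m = j)).card : ℝ) ≤ B * (2 ^ j : ℝ) ^ κ := by
      apply hQ (2 ^ j) (one_le_pow₀ (by norm_num)) (2 ^ j - 1)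
      intro m hm
      obtain ⟨h1, h2, h3⟩ := hmem m hm
      have h4 : 0 < 2 ^ j := by positivity
      refine ⟨h1, by omega, ?_⟩
      rw [pow_succ] at h3
      have h5 : m ≤ 2 ^ j - 1 + 2 ^ j := by omega
      exact_mod_cast h5
    calc ∑ m ∈ F.filter (fun m => Nat.log 2 m = j), (1 : ℝ) / m
        ≤ ∑ _m ∈ F.filter (fun m => Nat.log 2 m = j), (1 : ℝ) / 2 ^ j := by
          apply Finset.sum_le_sum
          intro m hm
          obtain ⟨_, h2, _⟩ := hmem m hm
          have : (2 : ℝ) ^ j ≤ m := by exact_mod_cast h2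
          gcongr
      _ = (F.filter (fun m => Nat.log 2 m = j)).card * (1 / 2 ^ j) := by
          rw [Finset.sum_const, nsmul_eq_mul]
      _ ≤ B * (2 ^ j : ℝ) ^ κ * (1 / 2 ^ j) := by gcongr
      _ = B * r ^ j := by
          rw [hr, ← Real.rpow_natCast (2 ^ (κ - 1)) j, ← Real.rpow_mul (by norm_num),
            ← Real.rpow_natCast 2 j, ← Real.rpow_mul (by norm_num), mul_assoc, one_div,
            ← Real.rpow_neg (by norm_num), ← Real.rpow_add (by norm_num)]
          congr 2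
          ring
  calc ∑ j ∈ Finset.range J, ∑ m ∈ F.filter (fun m => Nat.log 2 m = j), (1 : ℝ) / m
      ≤ ∑ j ∈ Finset.range J, B * r ^ j := Finset.sum_le_sum hj
    _ = B * ∑ j ∈ Finset.range J, r ^ j := by rw [Finset.mul_sum]
    _ ≤ B * (1 - r)⁻¹ := by
        gcongr
        rw [← tsum_geometric_of_lt_one hr0.le hr1]
        exact (summable_geometric_of_lt_one hr0.le hr1).sum_le_tsum _ (fun j _ => by positivity)

/-- the number of odd terms among the first `k` terms of the trajectory -/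
def oc (k n : ℕ) : ℕ := ((range k).filter (fun i => Co^[i] n % 2 = 1)).card

lemma oc_zero (n : ℕ) : oc 0 n = 0 := by simp [oc]

lemma oc_succ (k n : ℕ) : oc (k + 1) n = oc k n + (if Co^[k] n % 2 = 1 then 1 else 0) := by
  unfold oc
  rw [range_add_one, filter_insert]
  split_ifs with h
  · rw [card_insert_of_notMem (by simp)]
  · rfl

lemma oc_le (k n : ℕ) : oc k n ≤ k := by
  unfold oc
  calc _ ≤ (range k).card := card_filter_le _ _
    _ = k := card_range k

/-- two-sided bound for the iterates by the sum of the reciprocals -/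
lemma mult {n : ℕ} (hn : 1 ≤ n) : ∀ k : ℕ, (3 : ℝ) ^ oc k n * n ≤ 2 ^ (k - oc k n) * (Co^[k] n : ℕ) ∧
    2 ^ (k - oc k n) * ((Co^[k] n : ℕ) : ℝ) ≤
      3 ^ oc k n * n * Real.exp (∑ i ∈ range k, (1 : ℝ) / (3 * (Co^[i] n : ℕ))) := by
  intro k
  induction k with
  | zero => simp [oc_zero]
  | succ k ih =>
    obtain ⟨h1, h2⟩ := ih
    have hle := oc_le k n
    have hpos : (1 : ℝ) ≤ (Co^[k] n : ℕ) := by exact_mod_cast Co_iter_pos hn k
    rw [oc_succ, Function.iterate_succ_apply', sum_range_succ, Real.exp_add]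
    set x : ℝ := ((Co^[k] n : ℕ) : ℝ) with hx
    set E := Real.exp (∑ i ∈ range k, (1 : ℝ) / (3 * (Co^[i] n : ℕ))) with hE
    have hE0 : 0 < E := Real.exp_pos _
    rcases Nat.mod_two_eq_zero_or_one (Co^[k] n) with h | h
    · have e1 : ((Co (Co^[k] n) : ℕ) : ℝ) = x / 2 := by
        rw [Co_even h, hx]
        obtain ⟨y, hy⟩ : ∃ y, Co^[k] n = 2 * y := ⟨Co^[k] n / 2, by omega⟩
        rw [hy, show 2 * y / 2 = y by omega]
        push_cast
        ring
      rw [if_neg (by omega), e1, add_zero, show k + 1 - oc k n = (k - oc k n) + 1 by omega, pow_succ]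
      have e2 : (2 : ℝ) ^ (k - oc k n) * 2 * (x / 2) = 2 ^ (k - oc k n) * x := by ring
      rw [e2]
      refine ⟨h1, h2.trans ?_⟩
      have : 1 ≤ Real.exp (1 / (3 * x)) := Real.one_le_exp (by positivity)
      calc (3 : ℝ) ^ oc k n * n * E = 3 ^ oc k n * n * (E * 1) := by ring
        _ ≤ 3 ^ oc k n * n * (E * Real.exp (1 / (3 * x))) := by gcongr
    · have e1 : ((Co (Co^[k] n) : ℕ) : ℝ) = 3 * x + 1 := by
        rw [Co_odd h, hx]
        push_cast
        ring
      rw [if_pos h, e1, show k + 1 - (oc k n + 1) = k - oc k n by omega, pow_succ]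
      have hp : (0 : ℝ) < 2 ^ (k - oc k n) := by positivity
      constructor
      · nlinarith
      · have h3 : 3 * x + 1 ≤ 3 * x * Real.exp (1 / (3 * x)) := by
          have h4 := Real.add_one_le_exp (1 / (3 * x))
          calc 3 * x + 1 = 3 * x * (1 / (3 * x) + 1) := by field_simp; ring
            _ ≤ _ := by gcongr
        calc (2 : ℝ) ^ (k - oc k n) * (3 * x + 1)
            ≤ 2 ^ (k - oc k n) * (3 * x * Real.exp (1 / (3 * x))) := by gcongr
          _ = 3 * Real.exp (1 / (3 * x)) * (2 ^ (k - oc k n) * x) := by ring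
          _ ≤ 3 * Real.exp (1 / (3 * x)) * (3 ^ oc k n * n * E) := by gcongr
          _ = 3 ^ oc k n * 3 * n * (E * Real.exp (1 / (3 * x))) := by ring

/-- the iterates of a trajectory without repetitions -/
lemma mult' {D : ℝ} {n : ℕ} (hn : 1 ≤ n)
    (hD : ∀ F : Finset ℕ, (∀ m ∈ F, (∃ k, Co^[k] n = m) ∧ 1 ≤ m) → ∑ m ∈ F, (1 : ℝ) / m ≤ D)
    (k : ℕ) (hk : Set.InjOn (fun i => Co^[i] n) (Set.Iio k)) :
    (3 : ℝ) ^ oc k n * n ≤ 2 ^ (k - oc k n) * (Co^[k] n : ℕ) ∧
    2 ^ (k - oc k n) * ((Co^[k] n : ℕ) : ℝ) ≤ Real.exp (D / 3) * (3 ^ oc k n * n) := by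
  classical
  obtain ⟨h1, h2⟩ := mult hn k
  refine ⟨h1, h2.trans ?_⟩
  have h3 : ∑ i ∈ range k, (1 : ℝ) / (3 * (Co^[i] n : ℕ)) ≤ D / 3 := by
    have h4 : ∑ i ∈ range k, (1 : ℝ) / (Co^[i] n : ℕ) ≤ D := by
      have h5 : ∑ m ∈ (range k).image (fun i => Co^[i] n), (1 : ℝ) / m =
          ∑ i ∈ range k, (1 : ℝ) / (Co^[i] n : ℕ) := by
        rw [Finset.sum_image]
        intro i hi j hj hij
        exact hk (by simpa using hi) (by simpa using hj) hij
      rw [← h5]
      apply hD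
      intro m hm
      rw [Finset.mem_image] at hm
      obtain ⟨i, _, rfl⟩ := hm
      exact ⟨⟨i, rfl⟩, Co_iter_pos hn i⟩
    have h6 : ∑ i ∈ range k, (1 : ℝ) / (3 * (Co^[i] n : ℕ)) =
        (∑ i ∈ range k, (1 : ℝ) / (Co^[i] n : ℕ)) / 3 := by
      rw [Finset.sum_div]
      apply Finset.sum_congr rfl
      intro i _
      rw [div_div, mul_comm]
    rw [h6]
    linarith
  calc (3 : ℝ) ^ oc k n * n * Real.exp (∑ i ∈ range k, (1 : ℝ) / (3 * (Co^[i] n : ℕ)))
      ≤ 3 ^ oc k n * n * Real.exp (D / 3) := by gcongr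
    _ = _ := by ring

end Pool.Agent.K1H6.Col
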