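import Mathlib
import Pool.Agent.K1H6.ColC

set_option autoImplicit false

open Filter Topology Finset

namespace Pool.Agent.K1H6.Col

/-- sums of reciprocals of elements `≥ y` -/
lemma recip_ge {κ B : ℝ} (hκ1 : κ < 1) (hκ0 : 0 < κ) (hB : 0 < B) {Q : ℕ → Prop} (hQ : Sp κ B Q) {y : ℕ} (hy : 1 ≤ y)
    (F : Finset ℕ) (hF : ∀ m ∈ F, Q m ∧ y ≤ m) :
    ∑ m ∈ F, (1 : ℝ) / m ≤ 2 * B * (1 - 2 ^ (κ - 1))⁻¹ / (y : ℝ) ^ (1 - κ) := by
  classical
  set r : ℝ := 2 ^ (κ - 1) with hr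
  have hr0 : 0 < r := by positivity
  have hr1 : r < 1 := by
    rw [hr]
    exact Real.rpow_lt_one_of_one_lt_of_neg (by norm_num) (by linarith)
  set j₀ := Nat.log 2 y with hj₀
  set J := F.sup (fun m => Nat.log 2 m) + 1 with hJ
  have hmaps : ∀ m ∈ F, Nat.log 2 m ∈ Finset.Ico j₀ (j₀ + J) := by
    intro m hm
    rw [Finset.mem_Ico, hJ]
    have := Finset.le_sup (f := fun m => Nat.log 2 m) hm
    have h2 := Nat.log_mono_right (b := 2) (hF m hm).2
    omega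
  rw [← Finset.sum_fiberwise_of_maps_to hmaps]
  have hj : ∀ j ∈ Finset.Ico j₀ (j₀ + J), ∑ m ∈ F.filter (fun m => Nat.log 2 m = j), (1 : ℝ) / m ≤ B * r ^ j := by
    intro j _
    have hmem : ∀ m ∈ F.filter (fun m => Nat.log 2 m = j), Q m ∧ 2 ^ j ≤ m ∧ m < 2 ^ (j + 1) := by
      intro m hm
      rw [Finset.mem_filter] at hm
      obtain ⟨h1, h2⟩ := hm
      have h3 := (hF m h1).2
      refine ⟨(hF m h1).1, ?_, ?_⟩
      · rw [← h2]; exact Nat.pow_log_le_self 2 (by omega)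
      · rw [← h2]; exact Nat.lt_pow_succ_log_self (by norm_num) m
    have hcard : ((F.filter (fun m => Nat.log 2 m = j)).card : ℝ) ≤ B * (2 ^ j : ℝ) ^ κ := by
      apply hQ (2 ^ j) (one_le_pow₀ (by norm_num)) (2 ^ j - 1)
      intro m hm
      obtain ⟨h1, h2, h3⟩ := hmem m hm
      have h4 : 0 < 2 ^ j := by positivity
      refine ⟨h1, by omega, ?_⟩
      rw [pow_succ] at h3
      have h5 : m ≤ 2 ^ j - 1 + 2 ^ j := by omega
      exact_mod_cast h5
    calc ∑ m ∈ F.filter (fun m => Nat.log 2 m = j), (1 : ℝ) / m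
        ≤ ∑ _m ∈ F.filter (fun m => Nat.log 2 m = j), (1 : ℝ) / 2 ^ j := by
          apply Finset.sum_le_sum
          intro m hm
          obtain ⟨_, h2, _⟩ := hmem m hm
          have : (2 : ℝ) ^ j ≤ m := by exact_mod_cast h2
          gcongr
      _ = (F.filter (fun m => Nat.log 2 m = j)).card * (1 / 2 ^ j) := by
          rw [Finset.sum_const, nsmul_eq_mul]
      _ ≤ B * (2 ^ j : ℝ) ^ κ * (1 / 2 ^ j) := by gcongr
      _ = B * r ^ j := by
          rw [hr, ← Real.rpow_natCast (2 ^ (κ - 1)) j, ← Real.rpow_mul (by norm_num),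
            ← Real.rpow_natCast 2 j, ← Real.rpow_mul (by norm_num), mul_assoc, one_div,
            ← Real.rpow_neg (by norm_num), ← Real.rpow_add (by norm_num)]
          congr 2
          ring
  have hgeo : ∑ j ∈ Finset.Ico j₀ (j₀ + J), B * r ^ j ≤ B * r ^ j₀ * (1 - r)⁻¹ := by
    rw [Finset.sum_Ico_eq_sum_range, show j₀ + J - j₀ = J by omega]
    calc ∑ k ∈ Finset.range J, B * r ^ (j₀ + k) = B * r ^ j₀ * ∑ k ∈ Finset.range J, r ^ k := by
          rw [Finset.mul_sum]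
          apply Finset.sum_congr rfl
          intro k _
          rw [pow_add]; ring
      _ ≤ B * r ^ j₀ * (1 - r)⁻¹ := by
          gcongr
          rw [← tsum_geometric_of_lt_one hr0.le hr1]
          exact (summable_geometric_of_lt_one hr0.le hr1).sum_le_tsum _ (fun j _ => by positivity)
  have hpow : r ^ j₀ ≤ 2 / (y : ℝ) ^ (1 - κ) := by
    have hy0 : (0 : ℝ) < y := by exact_mod_cast hy
    have h1 : (y : ℝ) ≤ 2 ^ (j₀ + 1) := by
      have := (Nat.lt_pow_succ_log_self (b := 2) (by norm_num) y).le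
      exact_mod_cast this
    rw [le_div_iff₀ (by positivity)]
    calc r ^ j₀ * (y : ℝ) ^ (1 - κ) ≤ r ^ j₀ * ((2 : ℝ) ^ (j₀ + 1)) ^ (1 - κ) := by
          gcongr
      _ = 2 ^ (1 - κ) := by
          rw [hr, ← Real.rpow_natCast (2 ^ (κ - 1)) j₀, ← Real.rpow_mul (by norm_num),
            ← Real.rpow_natCast 2 (j₀ + 1), ← Real.rpow_mul (by norm_num),
            ← Real.rpow_add (by norm_num)]
          congr 1
          push_cast
          ring
      _ ≤ 2 ^ (1 : ℝ) := Real.rpow_le_rpow_of_exponent_le (by norm_num) (by linarith)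
      _ = 2 := by norm_num
  have hinv : 0 < (1 - r)⁻¹ := inv_pos.2 (by linarith)
  calc ∑ j ∈ Finset.Ico j₀ (j₀ + J), ∑ m ∈ F.filter (fun m => Nat.log 2 m = j), (1 : ℝ) / m
      ≤ ∑ j ∈ Finset.Ico j₀ (j₀ + J), B * r ^ j := Finset.sum_le_sum hj
    _ ≤ B * r ^ j₀ * (1 - r)⁻¹ := hgeo
    _ ≤ B * (2 / (y : ℝ) ^ (1 - κ)) * (1 - r)⁻¹ := by gcongr
    _ = _ := by ring

/-- both the terms of a trajectory and the cyclic points -/
theorem recips : ∃ D : ℝ, 0 < D ∧ ∀ y : ℕ, 1 ≤ y →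
    (∀ n : ℕ, ∀ F : Finset ℕ, (∀ m ∈ F, (∃ k, Co^[k] n = m) ∧ y ≤ m) →
      ∑ m ∈ F, (1 : ℝ) / m ≤ D / (y : ℝ) ^ (1 - kap)) ∧
    (∀ F : Finset ℕ, (∀ m ∈ F, m ∈ Function.periodicPts Co ∧ y ≤ m) →
      ∑ m ∈ F, (1 : ℝ) / m ≤ D / (y : ℝ) ^ (1 - kap)) := by
  obtain ⟨B, hB, h1, h2⟩ := sparse
  have hr1 : (2 : ℝ) ^ (kap - 1) < 1 :=
    Real.rpow_lt_one_of_one_lt_of_neg (by norm_num) (by linarith [kap_lt_one])
  have hR0 : 0 < (1 - (2 : ℝ) ^ (kap - 1))⁻¹ := inv_pos.2 (by linarith)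
  exact ⟨2 * B * (1 - 2 ^ (kap - 1))⁻¹, by positivity, fun y hy =>
    ⟨fun n F hF => recip_ge kap_lt_one kap_pos hB (h1 n) hy F hF,
     fun F hF => recip_ge kap_lt_one kap_pos hB h2 hy F hF⟩⟩

/-- the linear form of a cycle -/
lemma lin_form {n : ℕ} (hn : 1 ≤ n) {k : ℕ} (hk : 1 ≤ k) (hper : Co^[k] n = n) :
    0 < ((k - oc k n : ℕ) : ℝ) * Real.log 2 - (oc k n : ℝ) * Real.log 3 ∧
    ((k - oc k n : ℕ) : ℝ) * Real.log 2 - (oc k n : ℝ) * Real.log 3 ≤
      ∑ i ∈ range k, (1 : ℝ) / (3 * (Co^[i] n : ℕ)) := by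
  obtain ⟨h1, h2⟩ := mult hn k
  rw [hper] at h1 h2
  have hn0 : (0 : ℝ) < n := by exact_mod_cast hn
  have h3 : (3 : ℝ) ^ oc k n ≤ 2 ^ (k - oc k n) := le_of_mul_le_mul_right h1 hn0
  have h3' : 3 ^ oc k n ≤ 2 ^ (k - oc k n) := by exact_mod_cast h3
  have h4 : (2 : ℝ) ^ (k - oc k n) ≤ 3 ^ oc k n * Real.exp (∑ i ∈ range k, (1 : ℝ) / (3 * (Co^[i] n : ℕ))) := by
    apply le_of_mul_le_mul_right _ hn0
    calc _ ≤ _ := h2
      _ = _ := by ring
  have hne : 3 ^ oc k n ≠ 2 ^ (k - oc k n) := by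
    intro heq
    have hle := oc_le k n
    rcases Nat.eq_zero_or_pos (k - oc k n) with h0 | h0
    · rw [h0, pow_zero] at heq
      have : oc k n = 0 := by
        by_contra hc
        have : 3 ^ 1 ≤ 3 ^ oc k n := Nat.pow_le_pow_right (by norm_num) (by omega)
        omega
      omega
    · have e1 : 3 ^ oc k n % 2 = 1 := by
        rw [Nat.pow_mod]; norm_num
      have e2 : 2 ^ (k - oc k n) % 2 = 0 := by
        obtain ⟨j, hj⟩ : ∃ j, k - oc k n = j + 1 := ⟨k - oc k n - 1, by omega⟩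
        rw [hj, pow_succ]; omega
      omega
  have h5 : (3 : ℝ) ^ oc k n < 2 ^ (k - oc k n) := by
    have : 3 ^ oc k n < 2 ^ (k - oc k n) := lt_of_le_of_ne h3' hne
    exact_mod_cast this
  constructor
  · have h6 := Real.log_lt_log (by positivity) h5
    rw [Real.log_pow, Real.log_pow] at h6
    linarith
  · have h6 := Real.log_le_log (by positivity) h4
    rw [Real.log_mul (by positivity) (Real.exp_pos _).ne', Real.log_pow, Real.log_pow, Real.log_exp] at h6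
    linarith

/-- the terms of a cycle -/
noncomputable def cyc (m : ℕ) : Finset ℕ := (range (Function.minimalPeriod Co m)).image (fun i => Co^[i] m)

lemma sum_cyc {m : ℕ} (f : ℕ → ℝ) :
    ∑ x ∈ cyc m, f x = ∑ i ∈ range (Function.minimalPeriod Co m), f (Co^[i] m) := by
  unfold cyc
  rw [Finset.sum_image]
  intro i hi j hj hij
  rw [coe_range, Set.mem_Iio] at hi hj
  exact (Function.iterate_eq_iterate_iff_of_lt_minimalPeriod hi hj).1 hij

/-- the linear forms of different cycles -/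
theorem forms {D : ℝ} {y : ℕ} (hy : 1 ≤ y)
    (hD : ∀ F : Finset ℕ, (∀ m ∈ F, m ∈ Function.periodicPts Co ∧ y ≤ m) → ∑ m ∈ F, (1 : ℝ) / m ≤ D)
    (M : Finset ℕ) (hM : ∀ m ∈ M, m ∈ Function.periodicPts Co ∧ ∀ i, y ≤ Co^[i] m)
    (hdis : ∀ m ∈ M, ∀ m' ∈ M, ∀ i, Co^[i] m = m' → m = m') :
    ∑ m ∈ M, (((Function.minimalPeriod Co m - oc (Function.minimalPeriod Co m) m : ℕ) : ℝ) * Real.log 2 -
      (oc (Function.minimalPeriod Co m) m : ℝ) * Real.log 3) ≤ D / 3 := by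
  classical
  have h1 : ∀ m ∈ M, (((Function.minimalPeriod Co m - oc (Function.minimalPeriod Co m) m : ℕ) : ℝ) * Real.log 2 -
      (oc (Function.minimalPeriod Co m) m : ℝ) * Real.log 3) ≤ (∑ x ∈ cyc m, (1 : ℝ) / x) / 3 := by
    intro m hm
    obtain ⟨hper, hge⟩ := hM m hm
    have hm1 : 1 ≤ m := hy.trans (hge 0)
    have h2 := (lin_form hm1 (Function.minimalPeriod_pos_of_mem_periodicPts hper)
      (Function.isPeriodicPt_minimalPeriod Co m)).2
    refine h2.trans (le_of_eq ?_)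
    rw [sum_cyc, Finset.sum_div]
    apply Finset.sum_congr rfl
    intro i _
    rw [div_div, mul_comm]
  have hpd : (M : Set ℕ).PairwiseDisjoint cyc := by
    intro a ha b hb hab
    show Disjoint (cyc a) (cyc b)
    rw [Finset.disjoint_left]
    intro x hx1 hx2
    unfold cyc at hx1 hx2
    rw [Finset.mem_image] at hx1 hx2
    obtain ⟨i, hi, hia⟩ := hx1
    obtain ⟨j, hj, hjb⟩ := hx2
    apply hab
    rw [Finset.mem_range] at hj
    apply hdis a ha b hb ((Function.minimalPeriod Co b - j) + i)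
    rw [Function.iterate_add_apply, hia, ← hjb, ← Function.iterate_add_apply,
      show Function.minimalPeriod Co b - j + j = Function.minimalPeriod Co b by omega]
    exact Function.isPeriodicPt_minimalPeriod Co b
  have hU : ∑ x ∈ M.biUnion cyc, (1 : ℝ) / x ≤ D := by
    apply hD
    intro x hx
    rw [Finset.mem_biUnion] at hx
    obtain ⟨m, hm, hxm⟩ := hx
    unfold cyc at hxm
    rw [Finset.mem_image] at hxm
    obtain ⟨i, _, rfl⟩ := hxm
    refine ⟨?_, (hM m hm).2 i⟩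
    exact ((Function.bijOn_periodicPts Co).mapsTo.iterate i) (hM m hm).1
  rw [Finset.sum_biUnion hpd] at hU
  calc _ ≤ ∑ m ∈ M, (∑ x ∈ cyc m, (1 : ℝ) / x) / 3 := Finset.sum_le_sum h1
    _ = (∑ m ∈ M, ∑ x ∈ cyc m, (1 : ℝ) / x) / 3 := by rw [Finset.sum_div]
    _ ≤ D / 3 := by gcongr

end Pool.Agent.K1H6.Col
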