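import Pool.Agent.TH930.HW.Nat
import Pool.Agent.TH930.PS.Three

set_option autoImplicit false

/-! The stopping time estimate for `3x-1` on the positive integers (`3x+1` on the negative ones). -/

namespace Pool.Agent.K1H6.ColN

open Finset Pool.Agent.TH930.HW Pool.Agent.TH930.EBQ

/-- the shortcut map `n ↦ n/2`, `(3n-1)/2` -/
def T (n : ℕ) : ℕ := if n % 2 = 0 then n / 2 else (3 * n - 1) / 2

/-- the binary entropy of `log_3 2`, in bits: `0.94995...` -/
noncomputable def Ent : ℝ := Real.binEntropy (Real.log 2 / Real.log 3) / Real.log 2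

lemma H_gt : 12 / 13 < Ent := Pool.Agent.H319R2.beta_gt
lemma H_lt : Ent < 0.951 := Pool.Agent.H319R2.beta_lt

lemma Hh_H : Hh = Ent * Real.log 2 := by
  unfold Hh Ent Pool.Agent.TH930.EBQ.kap
  rw [div_mul_cancel₀ _ log2_pos.ne']

lemma T_cast (n : ℕ) : Pool.Agent.TH930.EBQ.T (-1) (n : ℤ) = ((T n : ℕ) : ℤ) := by
  unfold Pool.Agent.TH930.EBQ.T T
  by_cases h : n % 2 = 0
  · rw [if_pos (by omega), if_pos h]; omega
  · rw [if_neg (by omega), if_neg h]; omega

lemma T_iter_cast (j : ℕ) (n : ℕ) : (Pool.Agent.TH930.EBQ.T (-1))^[j] (n : ℤ) = ((T^[j] n : ℕ) : ℤ) := by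
  induction j with
  | zero => rfl
  | succ j ih => rw [Function.iterate_succ_apply', Function.iterate_succ_apply', ih, T_cast]

lemma T_eq (K n : ℕ) : (2 : ℝ) ^ K * (T^[K] n : ℕ) =
    3 ^ ones (wd (-1) K n) * n - cw (wd (-1) K n) := by
  have h := iter_eq (k := -1) (by decide) K (n : ℤ)
  rw [T_iter_cast] at h
  have h2 : (2 : ℤ) ^ K * (T^[K] n : ℕ) = 3 ^ ones (wd (-1) K n) * n - cw (wd (-1) K n) := by
    rw [h]; ring
  exact_mod_cast h2

lemma ones_ge_neg {K n : ℕ} {p D : ℝ} (hD : 0 < D) (hn : 0 < n)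
    (h2 : Real.exp (p * K * Real.log 3) * n ≤ D * (2 ^ K * (T^[K] n : ℕ))) :
    p * K - Real.log D / Real.log 3 ≤ ones (wd (-1) K n) := by
  have hn0 : (0 : ℝ) < n := by exact_mod_cast hn
  have h3 := T_eq K n
  have h4 : (0 : ℝ) ≤ ((cw (wd (-1) K n) : ℕ) : ℝ) := Nat.cast_nonneg _
  set o := ones (wd (-1) K n) with ho
  set Y : ℝ := 2 ^ K * (T^[K] n : ℕ) with hY
  have h5 : Y ≤ (3 : ℝ) ^ o * n := by linarith
  have h6 : Real.exp (p * K * Real.log 3) * n ≤ (D * 3 ^ o) * n := by
    calc Real.exp (p * K * Real.log 3) * n ≤ D * Y := h2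
      _ ≤ D * ((3 : ℝ) ^ o * n) := mul_le_mul_of_nonneg_left h5 hD.le
      _ = _ := by ring
  have h7 := le_of_mul_le_mul_right h6 hn0
  have h8 := Real.log_le_log (Real.exp_pos _) h7
  rw [Real.log_exp, Real.log_mul (by positivity) (by positivity), Real.log_pow] at h8
  have h9 : p * K - Real.log D / Real.log 3 = (p * K * Real.log 3 - Real.log D) / Real.log 3 := by
    have := log3_pos.ne'
    field_simp
  rw [h9, div_le_iff₀ log3_pos]
  linarith

theorem stop : ∀ τ : ℝ, 0 < τ → τ ≤ 1 / 1000000 → ∃ μ C : ℝ, 0 < μ ∧ 0 < C ∧ ∀ X : ℝ, 1 ≤ X → ∀ u : ℕ,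
    ({n : ℕ | u < n ∧ (n : ℝ) ≤ u + X ∧ (n : ℝ) ≤ X ^ μ * (T^[⌊(1 + τ) * Real.logb 2 X⌋₊] n : ℕ)}.ncard : ℝ) ≤
      C * X ^ (1 - (1 + τ) * (1 - Ent) + Real.exp (-(1 / (10000 * τ)))) := by
  classical
  intro τ hτ0 hτ1
  obtain ⟨C, hC, h⟩ := chern (δ := 9 / 25) (τ := τ) (by norm_num) (by norm_num) hτ0 (by linarith)
  set E : ℝ := Real.exp (-(1 / (10000 * τ))) with hE
  have hE0 : 0 < E := Real.exp_pos _
  have hE1 : E ≤ 1 := by
    rw [hE, Real.exp_le_one_iff]
    have : 0 < 1 / (10000 * τ) := by positivity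
    linarith
  have hEE : Real.exp (-((9 / 25) / (3000 * τ))) ≤ E := by
    rw [hE]
    apply Real.exp_le_exp.2
    have : 1 / (10000 * τ) ≤ (9 / 25) / (3000 * τ) := by
      rw [div_le_div_iff₀ (by positivity) (by positivity)]
      nlinarith
    linarith
  have hH1 := H_gt
  have hH2 := H_lt
  have hl2 := Real.log_two_lt_d9
  have hl2' := Real.log_two_gt_d9
  have hl0 : 0 < Real.log 2 := log2_pos
  set μ : ℝ := min (E / 2) (1 / 100) with hμ
  have hμ0 : 0 < μ := lt_min (by positivity) (by norm_num)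
  have hμ1 : μ ≤ E / 2 := min_le_left _ _
  have hμ2 : μ ≤ 1 / 100 := min_le_right _ _
  set a : ℝ := 1 - (1 + τ) * (1 - Ent) + E with ha
  have ha9 : 9 / 10 ≤ a := by
    rw [ha]
    have : τ * (1 - Ent) ≤ 1 / 1000000 * 1 := mul_le_mul hτ1 (by linarith) (by linarith) (by norm_num)
    nlinarith
  refine ⟨μ, 1000 + 100 * C, hμ0, by positivity, ?_⟩
  intro X hX u
  have hX0 : 0 < X := by linarith
  have hlX : 0 ≤ Real.log X := Real.log_nonneg hX
  have hXa : 1 ≤ X ^ a := Real.one_le_rpow hX (by linarith)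
  have hXμ : 1 ≤ X ^ μ := Real.one_le_rpow hX hμ0.le
  have hlb0 : 0 ≤ Real.logb 2 X := Real.logb_nonneg (by norm_num) hX
  have hlb : Real.logb 2 X * Real.log 2 = Real.log X := by unfold Real.logb; field_simp
  set K : ℕ := ⌊(1 + τ) * Real.logb 2 X⌋₊ with hK
  have hK1 : (K : ℝ) ≤ (1 + τ) * Real.logb 2 X := Nat.floor_le (by positivity)
  have hK2 : (1 + τ) * Real.logb 2 X < K + 1 := Nat.lt_floor_add_one _
  set A : Set ℕ := {n : ℕ | u < n ∧ (n : ℝ) ≤ u + X ∧ (n : ℝ) ≤ X ^ μ * (T^[K] n : ℕ)} with hA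
  have hAfin : A.Finite := by
    apply (Set.finite_Iic (u + ⌊X⌋₊)).subset
    rintro n ⟨-, h2, -⟩
    have h3 : (n : ℝ) - u ≤ X := by linarith
    rw [Set.mem_Iic]
    by_contra hcon
    rw [not_le] at hcon
    have h4 : ((n - u : ℕ) : ℝ) ≤ X := by
      rw [Nat.cast_sub (by omega)]; exact h3
    have h5 := Nat.le_floor h4
    omega
  have hmain : (A.ncard : ℝ) ≤ (1000 + 100 * C) * X ^ a := by
    rw [Set.ncard_eq_toFinset_card _ hAfin]
    -- the trivial bound
    have htriv : ∀ Y : ℝ, 0 ≤ Y → ∀ B : Finset ℕ, (∀ n ∈ B, u < n ∧ (n : ℝ) ≤ u + Y) →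
        (B.card : ℝ) ≤ Y := by
      intro Y hY B hB
      have h1 : B ⊆ Finset.Ioc u (u + ⌊Y⌋₊) := by
        intro n hn
        obtain ⟨h1, h2⟩ := hB n hn
        rw [mem_Ioc]
        refine ⟨h1, ?_⟩
        have h4 : ((n - u : ℕ) : ℝ) ≤ Y := by
          rw [Nat.cast_sub (by omega)]; linarith
        have h5 := Nat.le_floor h4
        omega
      have h2 := card_le_card h1
      rw [Nat.card_Ioc, Nat.add_sub_cancel_left] at h2
      have h3 : (B.card : ℝ) ≤ ⌊Y⌋₊ := by exact_mod_cast h2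
      exact h3.trans (Nat.floor_le hY)
    rcases lt_or_ge X 16 with hXs | hXb
    · have h1 := htriv X hX0.le hAfin.toFinset (fun n hn => by
        rw [Set.Finite.mem_toFinset] at hn
        exact ⟨hn.1, hn.2.1⟩)
      nlinarith
    -- small elements
    set B1 := hAfin.toFinset.filter (fun n : ℕ => (n : ℝ) < X ^ (9 / 10 : ℝ)) with hB1
    set B2 := hAfin.toFinset.filter (fun n : ℕ => ¬ (n : ℝ) < X ^ (9 / 10 : ℝ)) with hB2
    have hsplit : (hAfin.toFinset.card : ℝ) = B1.card + B2.card := by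
      rw [hB1, hB2]; exact_mod_cast (card_filter_add_card_filter_not (s := hAfin.toFinset) _).symm
    have hc1 : (B1.card : ℝ) ≤ X ^ a := by
      have h1 : (B1.card : ℝ) ≤ X ^ (9 / 10 : ℝ) := by
        have h2 : B1 ⊆ Finset.Ioc 0 ⌊X ^ (9 / 10 : ℝ)⌋₊ := by
          intro n hn
          rw [hB1, mem_filter, Set.Finite.mem_toFinset] at hn
          rw [mem_Ioc]
          exact ⟨by have := hn.1.1; omega, Nat.le_floor hn.2.le⟩
        have h3 := card_le_card h2
        rw [Nat.card_Ioc, Nat.sub_zero] at h3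
        have h4 : (B1.card : ℝ) ≤ ⌊X ^ (9 / 10 : ℝ)⌋₊ := by exact_mod_cast h3
        exact h4.trans (Nat.floor_le (Real.rpow_nonneg hX0.le _))
      exact h1.trans (Real.rpow_le_rpow_of_exponent_le hX ha9)
    -- the main part
    obtain ⟨W, hW1, hW2, hW3⟩ := exists_W hX
    have hc2 : (B2.card : ℝ) ≤ 8 * C * X ^ a := by
      have hlam0 := lam_pos
      have hlam1 := lam_le'
      set s : ℝ := Real.log (X ^ μ) with hs
      have hs0 : 0 ≤ s := Real.log_nonneg (by linarith)
      have hWn : (0 : ℝ) ≤ W := Nat.cast_nonneg W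
      have h1 := h (-1) (by decide) W (by
          rw [Int.cast_neg, Int.cast_one, abs_neg, abs_one]; exact Real.one_le_exp (by positivity)) K (by
          refine hK1.trans (mul_le_mul_of_nonneg_left hW3 (by linarith))) kap
        (by linarith [kap_gt_half]) (by linarith [kap_le']) s (u : ℤ)
        (B2.image (fun n : ℕ => (n : ℤ))) (by
        intro x hx
        rw [mem_image] at hx
        obtain ⟨n, hn, rfl⟩ := hx
        rw [hB2, mem_filter, Set.Finite.mem_toFinset, not_lt] at hn
        obtain ⟨⟨hn1, hn2, hn3⟩, hn4⟩ := hn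
        have hn0 : 0 < n := by omega
        have hnR : (0 : ℝ) < n := by exact_mod_cast hn0
        refine ⟨?_, ?_⟩
        · rw [abs_of_nonneg (by have : (u : ℤ) < n := by exact_mod_cast hn1
                                linarith)]
          have h2 : ((n : ℝ) - u) ≤ 2 ^ W := by linarith
          have h3 : (((n : ℤ) - u : ℤ) : ℝ) ≤ ((2 ^ W : ℤ) : ℝ) := by push_cast; exact h2
          exact_mod_cast h3
        · have hkapK : kap * Real.log 3 = Real.log 2 := kap_mul
          have hexp : Real.exp (kap * K * Real.log 3) = 2 ^ K := by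
            rw [pow2_exp]; congr 1
            rw [← hkapK]; ring
          have h2 := ones_ge_neg (K := K) (n := n) (p := Pool.Agent.TH930.EBQ.kap) (D := X ^ μ) (by linarith) hn0 (by
            rw [hexp]
            calc (2 : ℝ) ^ K * n ≤ 2 ^ K * (X ^ μ * (T^[K] n : ℕ)) :=
                  mul_le_mul_of_nonneg_left hn3 (by positivity)
              _ = _ := by ring)
          have h3 : -(s / Real.log 3) ≤ (ones (wd (-1) K n) : ℝ) - kap * K := by linarith
          have h4 : -(s / Real.log 3) * lam ≤ ((ones (wd (-1) K n) : ℝ) - kap * K) * lam :=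
            mul_le_mul_of_nonneg_right h3 hlam0.le
          have h5 : s / Real.log 3 * lam ≤ s := by
            rw [div_mul_eq_mul_div, div_le_iff₀ log3_pos]
            exact mul_le_mul_of_nonneg_left hlam1 hs0
          have h6 : lam = Real.log kap - Real.log (1 - kap) := rfl
          rw [← h6]
          linarith)
      rw [card_image_of_injective _ Nat.cast_injective] at h1
      refine h1.trans ?_
      have e1 : Real.exp s = X ^ μ := Real.exp_log (by positivity)
      have e2 : Real.binEntropy kap = Ent * Real.log 2 := Hh_H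
      rw [e1, e2]
      have h2 : Real.exp (W * Real.log 2 - K * (Real.log 2 - Ent * Real.log 2) +
          Real.exp (-((9 / 25) / (3000 * τ))) / 50 * W) ≤ 8 * X ^ (a - μ) := by
        have h3 : (8 : ℝ) = Real.exp (3 * Real.log 2) := by
          have := pow2_exp 3
          norm_num at this
          rw [← this]
        rw [h3, Real.rpow_def_of_pos hX0, ← Real.exp_add]
        apply Real.exp_le_exp.2
        have h4 : ((1 + τ) * Real.logb 2 X - 1) * (Real.log 2 - Ent * Real.log 2) ≤
            K * (Real.log 2 - Ent * Real.log 2) := by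
          apply mul_le_mul_of_nonneg_right (by linarith)
          nlinarith
        have h5 : (1 + τ) * Real.logb 2 X * (Real.log 2 - Ent * Real.log 2) =
            (1 + τ) * (1 - Ent) * Real.log X := by rw [← hlb]; ring
        have h6 : Real.exp (-((9 / 25) / (3000 * τ))) / 50 * W ≤ E / 50 * (2 * Real.log X + 2) := by
          have h7 : (W : ℝ) ≤ 2 * Real.log X + 2 := by
            have : (W : ℝ) * (1 / 2) ≤ W * Real.log 2 := mul_le_mul_of_nonneg_left (by linarith) hWn
            nlinarith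
          apply mul_le_mul (by linarith) h7 hWn (by positivity)
        have h7 : E / 2 * Real.log X ≤ (E - μ) * Real.log X :=
          mul_le_mul_of_nonneg_right (by linarith) hlX
        have h8 : E / 50 * (2 * Real.log X + 2) ≤ E / 2 * Real.log X + 1 / 25 := by
          have : 0 ≤ E * Real.log X := by positivity
          nlinarith
        have h9 : Real.log X * (a - μ) = Real.log X - (1 + τ) * (1 - Ent) * Real.log X +
            (E - μ) * Real.log X := by rw [ha]; ring
        rw [h9]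
        nlinarith
      have h3 : X ^ μ * X ^ (a - μ) = X ^ a := by
        rw [← Real.rpow_add hX0]; congr 1; ring
      calc C * (X ^ μ) * _ ≤ C * (X ^ μ) * (8 * X ^ (a - μ)) :=
            mul_le_mul_of_nonneg_left h2 (by positivity)
        _ = 8 * C * (X ^ μ * X ^ (a - μ)) := by ring
        _ = _ := by rw [h3]
    rw [hsplit]
    have : 0 ≤ C * X ^ a := by positivity
    nlinarith
  exact hmain

end Pool.Agent.K1H6.ColN
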