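import Mathlib
import Pool.Agent.K1H6.ColN1

set_option autoImplicit false

open Filter Topology Finset

namespace Pool.Agent.K1H6.ColN

/-- the number of odd terms among the first `k` terms -/
def od (k n : ℕ) : ℕ := ((range k).filter (fun i => T^[i] n % 2 = 1)).card

lemma od_zero (n : ℕ) : od 0 n = 0 := by simp [od]

lemma od_succ (k n : ℕ) : od (k + 1) n = od k n + (if T^[k] n % 2 = 1 then 1 else 0) := by
  unfold od
  rw [range_add_one, filter_insert]
  split_ifs with h
  · rw [card_insert_of_notMem (by simp)]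
  · rfl

lemma od_le (k n : ℕ) : od k n ≤ k := by
  unfold od
  calc _ ≤ (range k).card := card_filter_le _ _
    _ = k := card_range k

lemma T_even {x : ℕ} (h : x % 2 = 0) : ((T x : ℕ) : ℝ) = x / 2 := by
  unfold T
  rw [if_pos h]
  obtain ⟨y, rfl⟩ : ∃ y, x = 2 * y := ⟨x / 2, by omega⟩
  rw [show 2 * y / 2 = y by omega]
  push_cast
  ring

lemma T_odd {x : ℕ} (h : x % 2 = 1) : ((T x : ℕ) : ℝ) = (3 * x - 1) / 2 := by
  unfold T
  rw [if_neg (by omega)]
  obtain ⟨y, rfl⟩ : ∃ y, x = 2 * y + 1 := ⟨x / 2, by omega⟩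
  rw [show (3 * (2 * y + 1) - 1) / 2 = 3 * y + 1 by omega]
  push_cast
  ring

lemma T_pos {x : ℕ} (h : 1 ≤ x) : 1 ≤ T x := by
  unfold T
  split_ifs with h1 <;> omega

lemma T_iter_pos {x : ℕ} (h : 1 ≤ x) (k : ℕ) : 1 ≤ T^[k] x := by
  induction k with
  | zero => exact h
  | succ k ih => rw [Function.iterate_succ_apply']; exact T_pos ih

/-- the `k`-th iterate is close to `3 ^ o n / 2 ^ k` -/
lemma bounds (n : ℕ) : ∀ k : ℕ, ((T^[k] n : ℕ) : ℝ) ≤ (3 : ℝ) ^ od k n * n / 2 ^ k ∧
    (3 : ℝ) ^ od k n * n / 2 ^ k + 1 ≤ ((T^[k] n : ℕ) : ℝ) + (3 / 2) ^ od k n := by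
  intro k
  induction k with
  | zero => simp [od_zero]
  | succ k ih =>
    obtain ⟨h1, h2⟩ := ih
    rw [Function.iterate_succ_apply', od_succ]
    have h3 : (1 : ℝ) ≤ (3 / 2) ^ od k n := one_le_pow₀ (by norm_num)
    rcases Nat.mod_two_eq_zero_or_one (T^[k] n) with h | h
    · rw [if_neg (by omega), T_even h, add_zero, pow_succ (2 : ℝ) k, ← div_div]
      constructor
      · linarith
      · linarith
    · rw [if_pos h, T_odd h, pow_succ (2 : ℝ) k, pow_succ (3 : ℝ), pow_succ (3 / 2 : ℝ), ← div_div]
      have e : (3 : ℝ) ^ od k n * 3 * n / 2 ^ k = 3 * (3 ^ od k n * n / 2 ^ k) := by ring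
      rw [e]
      constructor
      · linarith
      · linarith

/-- the general form of the theorem, from the estimate for the stopping times -/
theorem inj_sets {μ κ C₁ : ℝ} (hμ0 : 0 < μ) (hμ1 : μ ≤ 1 / 4) (hκ9 : 9 / 10 ≤ κ) (hκ1 : κ ≤ 1) (hC₁ : 0 < C₁)
    (hbb : ∀ X : ℝ, 1 ≤ X → ∀ u : ℕ, ({n : ℕ | u < n ∧ (n : ℝ) ≤ u + X ∧
      (n : ℝ) ≤ X ^ μ * (T^[⌊(1 + 1 / 1000000) * Real.logb 2 X⌋₊] n : ℕ)}.ncard : ℝ) ≤ C₁ * X ^ κ) :
    ∃ A C : ℝ, 0 < A ∧ 0 < C ∧ ∀ X : ℝ, 1 ≤ X → ∀ u : ℕ, ∀ S : Finset ℕ,
      (∀ n ∈ S, u < n ∧ (n : ℝ) ≤ u + X) →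
      (∀ k : ℕ, (k : ℝ) ≤ A * (1 + Real.log X) → Set.InjOn (T^[k]) (S : Set ℕ)) →
      (S.card : ℝ) ≤ C * X ^ κ := by
  classical
  have hκ0 : 0 < κ := by linarith
  have hev : ∀ᶠ X : ℝ in atTop, ((1 + 1 / 1000000) * Real.logb 2 X + 1) * 4 ≤ 1 / 2 * X ^ (μ * κ) := by
    have h1 : Tendsto (fun X : ℝ => Real.log X / X ^ (μ * κ)) atTop (𝓝 0) := by
      have := (isLittleO_log_rpow_atTop (by positivity : 0 < μ * κ)).tendsto_div_nhds_zero
      exact this
    have h2 : Tendsto (fun X : ℝ => X ^ (μ * κ)) atTop atTop := tendsto_rpow_atTop (by positivity)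
    filter_upwards [(tendsto_order.1 h1).2 (1 / 30) (by norm_num), h2.eventually_ge_atTop 30,
      eventually_ge_atTop 1] with X h3 h4 h5
    have h6 : 0 < X ^ (μ * κ) := by positivity
    rw [div_lt_iff₀ h6] at h3
    have h7 : 0 ≤ Real.log X := Real.log_nonneg h5
    have h8 : Real.logb 2 X ≤ 3 / 2 * Real.log X := by
      unfold Real.logb
      rw [div_le_iff₀ (Real.log_pos (by norm_num))]
      have := Real.log_two_gt_d9
      nlinarith
    nlinarith
  obtain ⟨X₀, hX₀⟩ := eventually_atTop.1 (hev.and (((tendsto_rpow_atTop hμ0).eventually_ge_atTop 8).and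
    ((Real.tendsto_log_atTop.eventually_ge_atTop (2 / μ * Real.log 4)).and (eventually_ge_atTop 2))))
  have hA : (12 : ℝ) ≤ 3 / μ := by
    rw [le_div_iff₀ hμ0]; linarith
  refine ⟨3 / μ, max (2 * (C₁ + 1)) (max X₀ 1), by positivity, by positivity, ?_⟩
  set A := 3 / μ with hAdef
  set C := max (2 * (C₁ + 1)) (max X₀ 1) with hCdef
  have hC1 : 2 * (C₁ + 1) ≤ C := le_max_left _ _
  have hC2 : X₀ ≤ C := (le_max_left _ _).trans (le_max_right _ _)
  have hC3 : 1 ≤ C := (le_max_right _ _).trans (le_max_right _ _)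
  have main : ∀ N : ℕ, ∀ X : ℝ, 1 ≤ X → X ≤ N → ∀ u : ℕ, ∀ S : Finset ℕ,
      (∀ n ∈ S, u < n ∧ (n : ℝ) ≤ u + X) →
      (∀ k : ℕ, (k : ℝ) ≤ A * (1 + Real.log X) → Set.InjOn (T^[k]) (S : Set ℕ)) →
      (S.card : ℝ) ≤ C * X ^ κ := by
    intro N
    induction N with
    | zero =>
      intro X h1 h2
      exfalso
      push_cast at h2
      linarith
    | succ N ih =>
      intro X hX1 hXN u S hS hinj
      have hXκ : 1 ≤ X ^ κ := Real.one_le_rpow hX1 hκ0.le
      rcases lt_or_ge X X₀ with hX | hX
      · have h1 : S ⊆ Finset.Ioc u (u + ⌊X⌋₊) := by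
          intro n hn
          obtain ⟨h2, h3⟩ := hS n hn
          rw [Finset.mem_Ioc]
          refine ⟨h2, ?_⟩
          have h4 : ((n - u : ℕ) : ℝ) ≤ X := by
            rw [Nat.cast_sub h2.le]; linarith
          have := Nat.le_floor h4
          omega
        have h2 : (S.card : ℝ) ≤ X := by
          have h3 := Finset.card_le_card h1
          rw [Nat.card_Ioc, Nat.add_sub_cancel_left] at h3
          calc (S.card : ℝ) ≤ (⌊X⌋₊ : ℕ) := by exact_mod_cast h3
            _ ≤ X := Nat.floor_le (by linarith)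
        calc (S.card : ℝ) ≤ X := h2
          _ ≤ C := by linarith
          _ ≤ C * X ^ κ := by nlinarith
      · obtain ⟨hb1, hb2, hb3, hb4⟩ := hX₀ X hX
        have hX0 : 0 < X := by linarith
        set K := ⌊(1 + 1 / 1000000) * Real.logb 2 X⌋₊ with hK
        have hlog0 : 0 ≤ Real.log X := Real.log_nonneg hX1
        have hlogb0 : 0 ≤ Real.logb 2 X := Real.logb_nonneg (by norm_num) hX1
        have hKle : (K : ℝ) ≤ (1 + 1 / 1000000) * Real.logb 2 X := Nat.floor_le (by positivity)
        have hlogb : Real.logb 2 X ≤ 1.4428 * Real.log X := by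
          unfold Real.logb
          rw [div_le_iff₀ (Real.log_pos (by norm_num))]
          have := Real.log_two_gt_d9
          nlinarith
        have hK15 : (K : ℝ) ≤ 3 / 2 * Real.log X := by
          calc (K : ℝ) ≤ (1 + 1 / 1000000) * Real.logb 2 X := hKle
            _ ≤ (1 + 1 / 1000000) * (1.4428 * Real.log X) := by gcongr
            _ ≤ 3 / 2 * Real.log X := by nlinarith
        have hAμ : A * μ = 3 := by rw [hAdef]; field_simp
        -- the size of the next interval
        set X' := 4 * X ^ (1 - μ) with hX'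
        have hXμ : X ^ (1 - μ) * X ^ μ = X := by
          rw [← Real.rpow_add hX0]; simp
        have hXμ0 : 1 ≤ X ^ (1 - μ) := Real.one_le_rpow hX1 (by linarith)
        have hX'1 : 1 ≤ X' := by rw [hX']; linarith
        have hX'N : X' ≤ N := by
          push_cast at hXN
          have h1 : X ^ (1 - μ) * 8 ≤ X := by
            calc X ^ (1 - μ) * 8 ≤ X ^ (1 - μ) * X ^ μ := by gcongr
              _ = X := hXμ
          rw [hX']
          linarith
        have hlogX' : Real.log X' = Real.log 4 + (1 - μ) * Real.log X := by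
          rw [hX', Real.log_mul (by norm_num) (by positivity), Real.log_rpow hX0]
        have htime : A * (1 + Real.log X') + K ≤ A * (1 + Real.log X) := by
          rw [hlogX']
          have h1 : A * Real.log 4 ≤ 3 / 2 * Real.log X := by
            have h2 : A * Real.log 4 = 3 / 2 * (2 / μ * Real.log 4) := by
              rw [hAdef]; field_simp
            rw [h2]; linarith
          have h2 : A * (1 + (Real.log 4 + (1 - μ) * Real.log X)) =
              A * (1 + Real.log X) + A * Real.log 4 - A * μ * Real.log X := by ring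
          rw [h2, hAμ]
          linarith
        have hKA : (K : ℝ) ≤ A * (1 + Real.log X) := by
          have : 0 ≤ A * (1 + Real.log X') := by
            have := Real.log_nonneg hX'1
            positivity
          linarith
        -- the powers of 3/2
        have hpow32 : ((3 : ℝ) / 2) ^ K ≤ X ^ (13 / 20 : ℝ) := by
          have h1 : (3 / 2 : ℝ) ≤ 2 ^ (3 / 5 : ℝ) := by
            have h2 : ((3 / 2 : ℝ)) ^ 5 ≤ ((2 : ℝ) ^ (3 / 5 : ℝ)) ^ 5 := by
              rw [← Real.rpow_natCast ((2 : ℝ) ^ (3 / 5 : ℝ)) 5, ← Real.rpow_mul (by norm_num)]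
              norm_num
            exact (pow_le_pow_iff_left₀ (by norm_num) (by positivity) (by norm_num)).1 h2
          calc ((3 : ℝ) / 2) ^ K ≤ ((2 : ℝ) ^ (3 / 5 : ℝ)) ^ K := by gcongr
            _ = 2 ^ ((3 / 5 : ℝ) * K) := by
                rw [← Real.rpow_natCast ((2 : ℝ) ^ (3 / 5 : ℝ)) K, ← Real.rpow_mul (by norm_num)]
            _ ≤ 2 ^ (Real.logb 2 X * (13 / 20)) :=
                Real.rpow_le_rpow_of_exponent_le (by norm_num) (by linarith)
            _ = X ^ (13 / 20 : ℝ) := by
                rw [Real.rpow_mul (by norm_num), Real.rpow_logb (by norm_num) (by norm_num) hX0]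
        -- the exceptional elements
        set E := S.filter (fun n : ℕ => (n : ℝ) ≤ X ^ μ * (T^[K] n : ℕ) ∨ (n : ℝ) < X ^ (9 / 10 : ℝ)) with hE
        set G := S.filter (fun n : ℕ => ¬ ((n : ℝ) ≤ X ^ μ * (T^[K] n : ℕ) ∨ (n : ℝ) < X ^ (9 / 10 : ℝ))) with hG
        have hEG : S.card = E.card + G.card := (Finset.card_filter_add_card_filter_not _).symm
        have hEcard : (E.card : ℝ) ≤ (C₁ + 1) * X ^ κ := by
          set E1 := E.filter (fun n : ℕ => (n : ℝ) ≤ X ^ μ * (T^[K] n : ℕ)) with hE1
          set E2 := E.filter (fun n : ℕ => ¬ (n : ℝ) ≤ X ^ μ * (T^[K] n : ℕ)) with hE2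
          have hEE : E.card = E1.card + E2.card := (Finset.card_filter_add_card_filter_not _).symm
          have hE1c : (E1.card : ℝ) ≤ C₁ * X ^ κ := by
            refine le_trans ?_ (hbb X hX1 u)
            have hfin : {n : ℕ | u < n ∧ (n : ℝ) ≤ u + X ∧ (n : ℝ) ≤ X ^ μ * (T^[K] n : ℕ)}.Finite := by
              apply (Set.finite_Iic ⌊(u : ℝ) + X⌋₊).subset
              intro n hn
              rw [Set.mem_Iic]
              exact Nat.le_floor hn.2.1
            rw [← Set.ncard_coe_finset]
            have := Set.ncard_le_ncard (s := (E1 : Set ℕ)) (t := {n : ℕ | u < n ∧ (n : ℝ) ≤ u + X ∧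
              (n : ℝ) ≤ X ^ μ * (T^[K] n : ℕ)}) (by
                intro n hn
                rw [Finset.mem_coe, hE1, Finset.mem_filter, hE, Finset.mem_filter] at hn
                exact ⟨(hS n hn.1.1).1, (hS n hn.1.1).2, hn.2⟩) hfin
            exact_mod_cast this
          have hE2c : (E2.card : ℝ) ≤ X ^ κ := by
            have h1 : E2 ⊆ Finset.Ioc 0 ⌊X ^ (9 / 10 : ℝ)⌋₊ := by
              intro n hn
              rw [hE2, Finset.mem_filter, hE, Finset.mem_filter] at hn
              have h2 : (n : ℝ) < X ^ (9 / 10 : ℝ) := by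
                rcases hn.1.2 with h | h
                · exact absurd h hn.2
                · exact h
              rw [Finset.mem_Ioc]
              exact ⟨by have := (hS n hn.1.1).1; omega, Nat.le_floor h2.le⟩
            have h3 := Finset.card_le_card h1
            rw [Nat.card_Ioc, Nat.sub_zero] at h3
            calc (E2.card : ℝ) ≤ (⌊X ^ (9 / 10 : ℝ)⌋₊ : ℕ) := by exact_mod_cast h3
              _ ≤ X ^ (9 / 10 : ℝ) := Nat.floor_le (by positivity)
              _ ≤ X ^ κ := Real.rpow_le_rpow_of_exponent_le hX1 hκ9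
          rw [hEE]
          push_cast
          linarith
        -- the other elements
        have hGo : ∀ o ∈ Finset.range (K + 1), ((G.filter (fun n => od K n = o)).card : ℝ) ≤
            C * X' ^ κ := by
          intro o hoK
          rw [Finset.mem_range] at hoK
          set Go := G.filter (fun n => od K n = o) with hGo
          have hGoS : ∀ n ∈ Go, n ∈ S := by
            intro n hn
            rw [hGo, Finset.mem_filter, hG, Finset.mem_filter] at hn
            exact hn.1.1
          rcases Go.eq_empty_or_nonempty with hemp | ⟨n₀, hn₀⟩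
          · rw [hemp]; simp; positivity
          have hcard : (Go.image (T^[K])).card = Go.card := by
            apply Finset.card_image_of_injOn
            exact (hinj K hKA).mono (by intro n hn; exact hGoS n hn)
          rw [← hcard]
          have hsq : ((3 : ℝ) / 2) ^ o ≤ X ^ (13 / 20 : ℝ) := by
            refine le_trans ?_ hpow32
            exact pow_le_pow_right₀ (by norm_num) (by omega)
          have hsq' : X ^ (13 / 20 : ℝ) ≤ X ^ (1 - μ) :=
            Real.rpow_le_rpow_of_exponent_le hX1 (by linarith)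
          -- the ratio
          have hratio : (3 : ℝ) ^ o / 2 ^ K ≤ 2 * X ^ (-μ) := by
            have h0 := hn₀
            rw [hGo, Finset.mem_filter, hG, Finset.mem_filter] at h0
            obtain ⟨⟨h1, h2⟩, h3⟩ := h0
            push Not at h2
            obtain ⟨h2, h2'⟩ := h2
            have h4 := (bounds n₀ K).2
            rw [h3] at h4
            have hn0 : (0 : ℝ) < n₀ := by
              have := (hS n₀ h1).1
              exact_mod_cast (by omega : 0 < n₀)
            have h5 : ((T^[K] n₀ : ℕ) : ℝ) ≤ n₀ * X ^ (-μ) := by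
              rw [Real.rpow_neg hX0.le, ← div_eq_mul_inv, le_div_iff₀ (by positivity)]
              linarith
            have h6 : X ^ (13 / 20 : ℝ) ≤ n₀ * X ^ (-μ) := by
              calc X ^ (13 / 20 : ℝ) ≤ X ^ (9 / 10 + -μ) :=
                    Real.rpow_le_rpow_of_exponent_le hX1 (by linarith)
                _ = X ^ (9 / 10 : ℝ) * X ^ (-μ) := Real.rpow_add hX0 _ _
                _ ≤ n₀ * X ^ (-μ) := by gcongr
            have h7 : (3 : ℝ) ^ o / 2 ^ K * n₀ ≤ 2 * X ^ (-μ) * n₀ := by
              have h8 : (3 : ℝ) ^ o / 2 ^ K * n₀ = 3 ^ o * n₀ / 2 ^ K := by ring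
              rw [h8]
              linarith
            exact le_of_mul_le_mul_right h7 hn0
          refine ih X' hX'1 hX'N ⌊(3 : ℝ) ^ o * u / 2 ^ K - (3 / 2) ^ o⌋₊ (Go.image (T^[K])) ?_ ?_
          · intro m hm
            rw [Finset.mem_image] at hm
            obtain ⟨n, hn, rfl⟩ := hm
            have hnS := hS n (hGoS n hn)
            have hod : od K n = o := by
              rw [hGo, Finset.mem_filter] at hn
              exact hn.2
            obtain ⟨h1, h2⟩ := bounds n K
            rw [hod] at h1 h2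
            have hun : (u : ℝ) < n := by exact_mod_cast hnS.1
            have hfl2 := Nat.lt_floor_add_one ((3 : ℝ) ^ o * u / 2 ^ K - (3 / 2) ^ o)
            constructor
            · rcases lt_or_ge ((3 : ℝ) ^ o * u / 2 ^ K - (3 / 2) ^ o) 0 with hneg | hpos
              · rw [Nat.floor_of_nonpos hneg.le]
                exact T_iter_pos (by omega) K
              · have hfl := Nat.floor_le hpos
                have h3 : (3 : ℝ) ^ o * u / 2 ^ K < 3 ^ o * n / 2 ^ K := by gcongr
                have h4 : ((⌊(3 : ℝ) ^ o * u / 2 ^ K - (3 / 2) ^ o⌋₊ : ℕ) : ℝ) < (T^[K] n : ℕ) := by linarith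
                exact_mod_cast h4
            · have h3 : (3 : ℝ) ^ o * n / 2 ^ K ≤ 3 ^ o * u / 2 ^ K + 3 ^ o / 2 ^ K * X := by
                have : (3 : ℝ) ^ o * n / 2 ^ K ≤ 3 ^ o * (u + X) / 2 ^ K := by
                  gcongr; exact hnS.2
                calc _ ≤ _ := this
                  _ = _ := by ring
              have h4 : (3 : ℝ) ^ o / 2 ^ K * X ≤ 2 * X ^ (1 - μ) := by
                calc (3 : ℝ) ^ o / 2 ^ K * X ≤ 2 * X ^ (-μ) * X := by gcongr
                  _ = 2 * X ^ (1 - μ) := by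
                    rw [sub_eq_neg_add, Real.rpow_add hX0, Real.rpow_one]; ring
              rw [hX']
              linarith
          · intro k hk
            have hkK : ((k + K : ℕ) : ℝ) ≤ A * (1 + Real.log X) := by
              push_cast; linarith
            have hI := hinj (k + K) hkK
            intro x hx y hy hxy
            rw [Finset.coe_image] at hx hy
            obtain ⟨n, hn, rfl⟩ := hx
            obtain ⟨m, hm, rfl⟩ := hy
            rw [← Function.iterate_add_apply, ← Function.iterate_add_apply] at hxy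
            rw [hI (hGoS n hn) (hGoS m hm) hxy]
        have hGcard : (G.card : ℝ) ≤ (K + 1) * (C * X' ^ κ) := by
          have h1 : G.card = ∑ o ∈ Finset.range (K + 1), (G.filter (fun n => od K n = o)).card := by
            apply Finset.card_eq_sum_card_fiberwise
            intro n _
            rw [Finset.mem_coe, Finset.mem_range]
            have := od_le K n
            omega
          rw [h1]
          push_cast
          calc ∑ o ∈ Finset.range (K + 1), ((G.filter (fun n => od K n = o)).card : ℝ)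
              ≤ ∑ _o ∈ Finset.range (K + 1), C * X' ^ κ := Finset.sum_le_sum hGo
            _ = (K + 1) * (C * X' ^ κ) := by
                rw [Finset.sum_const, Finset.card_range, nsmul_eq_mul]; push_cast; ring
        have hfinal : ((K : ℝ) + 1) * (C * X' ^ κ) ≤ C / 2 * X ^ κ := by
          have h1 : X' ^ κ ≤ 4 * X ^ ((1 - μ) * κ) := by
            rw [hX', Real.mul_rpow (by norm_num) (by positivity), ← Real.rpow_mul hX0.le]
            have : (4 : ℝ) ^ κ ≤ 4 := by
              calc (4 : ℝ) ^ κ ≤ 4 ^ (1 : ℝ) := Real.rpow_le_rpow_of_exponent_le (by norm_num) hκ1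
                _ = 4 := by norm_num
            gcongr
          have h2 : ((K : ℝ) + 1) * 4 ≤ 1 / 2 * X ^ (μ * κ) := by
            refine le_trans ?_ hb1
            gcongr
          have h3 : X ^ (μ * κ) * X ^ ((1 - μ) * κ) = X ^ κ := by
            rw [← Real.rpow_add hX0]; congr 1; ring
          calc ((K : ℝ) + 1) * (C * X' ^ κ) ≤ (K + 1) * (C * (4 * X ^ ((1 - μ) * κ))) := by gcongr
            _ = C * (((K + 1) * 4) * X ^ ((1 - μ) * κ)) := by ring
            _ ≤ C * ((1 / 2 * X ^ (μ * κ)) * X ^ ((1 - μ) * κ)) := by gcongr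
            _ = C / 2 * (X ^ (μ * κ) * X ^ ((1 - μ) * κ)) := by ring
            _ = C / 2 * X ^ κ := by rw [h3]
        have hEG' : (S.card : ℝ) = E.card + G.card := by exact_mod_cast hEG
        rw [hEG']
        have : (C₁ + 1) * X ^ κ ≤ C / 2 * X ^ κ := by gcongr; linarith
        linarith
  intro X hX1 u S hS hinj
  exact main ⌈X⌉₊ X hX1 (Nat.le_ceil X) u S hS hinj

end Pool.Agent.K1H6.ColN
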