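import Mathlib
import Pool.Agent.K1H6.ColD
import Pool.Agent.K1H6.ColN2

set_option autoImplicit false

open Filter Topology Finset

namespace Pool.Agent.K1H6.ColN

open Pool.Agent.K1H6.Col (Sp recip_ge)

/-- the general form of the theorem -/
def Gen (f : ℕ → ℕ) (κ A C : ℝ) : Prop := ∀ X : ℝ, 1 ≤ X → ∀ u : ℕ, ∀ S : Finset ℕ,
      (∀ n ∈ S, u < n ∧ (n : ℝ) ≤ u + X) →
      (∀ k : ℕ, (k : ℝ) ≤ A * (1 + Real.log X) → Set.InjOn (f^[k]) (S : Set ℕ)) →
      (S.card : ℝ) ≤ C * X ^ κ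

section generic
variable {f : ℕ → ℕ}

lemma per_iter {x : ℕ} (h : x ∈ Function.periodicPts f) (r : ℕ) : f^[r] x ∈ Function.periodicPts f :=
  ((Function.bijOn_periodicPts f).mapsTo.iterate r) h

lemma per_inj (k : ℕ) : Set.InjOn (f^[k]) (Function.periodicPts f) :=
  ((Function.bijOn_periodicPts f).iterate k).injOn

lemma sp_per {κ A C : ℝ} (h : Gen f κ A C) : Sp κ C (fun m => m ∈ Function.periodicPts f) := by
  intro X hX u F hF
  apply h X hX u F (fun m hm => (hF m hm).2)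
  intro k _
  exact (per_inj k).mono (fun m hm => (hF m hm).1)

lemma sp_traj {κ A C : ℝ} (hκ : 0 < κ) (hA : 0 < A) (hC : 0 < C) (h : Gen f κ A C) (n : ℕ) :
    Sp κ (2 * C + A * (1 + 1 / κ)) (fun m => ∃ k, f^[k] n = m) := by
  classical
  intro X hX u F hF
  set K := ⌊A * (1 + Real.log X)⌋₊ with hK
  have hlog0 : 0 ≤ Real.log X := Real.log_nonneg hX
  have hKle : (K : ℝ) ≤ A * (1 + Real.log X) := Nat.floor_le (by positivity)
  have hkK : ∀ k : ℕ, (k : ℝ) ≤ A * (1 + Real.log X) → k ≤ K := fun k hk => Nat.le_floor hk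
  set P := Function.periodicPts f with hP
  set S₃ := F.filter (fun m => m ∈ P) with hS₃
  set R := F.filter (fun m => ¬ m ∈ P) with hR
  set S₂ := R.filter (fun m => f^[K] m ∈ P) with hS₂
  set S₁ := R.filter (fun m => ¬ f^[K] m ∈ P) with hS₁
  have e1 : F.card = S₃.card + R.card := (Finset.card_filter_add_card_filter_not _).symm
  have e2 : R.card = S₂.card + S₁.card := (Finset.card_filter_add_card_filter_not _).symm
  have mem1 : ∀ m ∈ S₁, m ∈ F ∧ m ∉ P ∧ f^[K] m ∉ P := by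
    intro m hm
    rw [hS₁, Finset.mem_filter, hR, Finset.mem_filter] at hm
    exact ⟨hm.1.1, hm.1.2, hm.2⟩
  have mem2 : ∀ m ∈ S₂, m ∈ F ∧ m ∉ P ∧ f^[K] m ∈ P := by
    intro m hm
    rw [hS₂, Finset.mem_filter, hR, Finset.mem_filter] at hm
    exact ⟨hm.1.1, hm.1.2, hm.2⟩
  have h3 : (S₃.card : ℝ) ≤ C * X ^ κ := by
    apply sp_per h X hX u
    intro m hm
    rw [hS₃, Finset.mem_filter] at hm
    exact ⟨hm.2, (hF m hm.1).2⟩
  have key : ∀ i j k : ℕ, k ≤ K → i < j → f^[K] (f^[i] n) ∉ P →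
      f^[k] (f^[i] n) = f^[k] (f^[j] n) → False := by
    intro i j k hk hij hnp heq
    apply hnp
    have h1 : f^[k] (f^[i] n) ∈ P := by
      apply Function.mk_mem_periodicPts (n := j - i) (by omega)
      rw [Function.IsPeriodicPt, Function.IsFixedPt]
      calc f^[j - i] (f^[k] (f^[i] n)) = f^[(j - i) + (k + i)] n := by
            rw [Function.iterate_add_apply, Function.iterate_add_apply]
        _ = f^[k + j] n := by rw [show (j - i) + (k + i) = k + j by omega]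
        _ = f^[k] (f^[j] n) := Function.iterate_add_apply _ _ _ _
        _ = f^[k] (f^[i] n) := heq.symm
    have h2 := per_iter h1 (K - k)
    rw [← Function.iterate_add_apply] at h2
    rwa [show K - k + k = K by omega] at h2
  have h1 : (S₁.card : ℝ) ≤ C * X ^ κ := by
    apply h X hX u S₁ (fun m hm => (hF m (mem1 m hm).1).2)
    intro k hk x hx y hy hxy
    obtain ⟨i, hi⟩ := (hF x (mem1 x hx).1).1
    obtain ⟨j, hj⟩ := (hF y (mem1 y hy).1).1
    subst hi
    subst hj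
    rcases lt_trichotomy i j with hij | hij | hij
    · exact (key i j k (hkK k hk) hij (mem1 _ hx).2.2 hxy).elim
    · rw [hij]
    · exact (key j i k (hkK k hk) hij (mem1 _ hy).2.2 hxy.symm).elim
  have h2 : (S₂.card : ℝ) ≤ K := by
    rcases S₂.eq_empty_or_nonempty with he | ⟨m₀, hm₀⟩
    · rw [he]; simp
    · have hex : ∃ p, f^[p] n ∈ P := by
        obtain ⟨i, hi⟩ := (hF m₀ (mem2 m₀ hm₀).1).1
        refine ⟨K + i, ?_⟩
        rw [Function.iterate_add_apply, hi]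
        exact (mem2 m₀ hm₀).2.2
      set p := Nat.find hex with hp
      have hpP : f^[p] n ∈ P := Nat.find_spec hex
      have hsub : S₂ ⊆ (Finset.Ico (p - K) p).image (fun i => f^[i] n) := by
        intro m hm
        obtain ⟨i, hi⟩ := (hF m (mem2 m hm).1).1
        have g1 : i < p := by
          by_contra hcon
          push Not at hcon
          apply (mem2 m hm).2.1
          rw [← hi]
          have := per_iter hpP (i - p)
          rw [← Function.iterate_add_apply] at this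
          rwa [show i - p + p = i by omega] at this
        have g2 : p ≤ K + i := by
          apply Nat.find_min' hex
          rw [Function.iterate_add_apply, hi]
          exact (mem2 m hm).2.2
        rw [Finset.mem_image]
        exact ⟨i, by rw [Finset.mem_Ico]; omega, hi⟩
      have : S₂.card ≤ K := by
        calc S₂.card ≤ _ := Finset.card_le_card hsub
          _ ≤ (Finset.Ico (p - K) p).card := Finset.card_image_le
          _ ≤ K := by rw [Nat.card_Ico]; omega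
      exact_mod_cast this
  have h4 : (K : ℝ) ≤ A * (1 + 1 / κ) * X ^ κ := by
    have g1 : Real.log X ≤ X ^ κ / κ := Real.log_le_rpow_div (by linarith) hκ
    have g2 : 1 ≤ X ^ κ := Real.one_le_rpow hX hκ.le
    calc (K : ℝ) ≤ A * (1 + Real.log X) := hKle
      _ ≤ A * (X ^ κ + X ^ κ / κ) := by gcongr
      _ = A * (1 + 1 / κ) * X ^ κ := by ring
  have e3 : (F.card : ℝ) = S₃.card + (S₂.card + S₁.card) := by
    rw [e1, e2]; push_cast; ring
  rw [e3]
  nlinarith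

/-- **Intervals collapse.** -/
theorem image_card {κ A C : ℝ} (hg : Gen f κ A C) {X : ℝ} (hX : 1 ≤ X) (u K : ℕ)
    (hK : A * (1 + Real.log X) ≤ K) :
    (((fun m => f^[K] m) '' {m : ℕ | u < m ∧ (m : ℝ) ≤ u + X}).ncard : ℝ) ≤ C * X ^ κ := by
  classical
  have hfin : {m : ℕ | u < m ∧ (m : ℝ) ≤ u + X}.Finite := by
    apply (Set.finite_Iic ⌊(u : ℝ) + X⌋₊).subset
    intro n hn
    rw [Set.mem_Iic]
    exact Nat.le_floor hn.2
  obtain ⟨S, hS, hbij⟩ := Set.exists_subset_bijOn {m : ℕ | u < m ∧ (m : ℝ) ≤ u + X} (fun m => f^[K] m)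
  have hSf : S.Finite := hfin.subset hS
  have h1 : ((fun m => f^[K] m) '' {m : ℕ | u < m ∧ (m : ℝ) ≤ u + X}).ncard = S.ncard := by
    rw [← hbij.image_eq, hbij.injOn.ncard_image]
  rw [h1, Set.ncard_eq_toFinset_card _ hSf]
  refine hg X hX u _ ?_ ?_
  · intro m hm
    rw [Set.Finite.mem_toFinset] at hm
    exact hS hm
  · intro k hk
    rw [Set.Finite.coe_toFinset]
    have hkK : k ≤ K := by exact_mod_cast hk.trans hK
    intro a ha b hb hab
    apply hbij.injOn ha hb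
    show f^[K] a = f^[K] b
    rw [← Nat.sub_add_cancel hkK, Function.iterate_add_apply, Function.iterate_add_apply, hab]

end generic

/-- the exponent -/
noncomputable def kap : ℝ := 1 - (1 + 1 / 1000000) * (1 - Ent) + Real.exp (-(1 / (10000 * (1 / 1000000))))

theorem kap_lt : kap < Ent := by
  have h1 := Pool.Agent.K1H6.Col.exp_small
  have h2 := H_lt
  unfold kap
  nlinarith

theorem kap_gt : 9 / 10 ≤ kap := by
  have h1 := Real.exp_pos (-(1 / (10000 * (1 / 1000000 : ℝ))))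
  have h2 := H_gt
  unfold kap
  nlinarith

theorem kap_pos : 0 < kap := by linarith [kap_gt]

theorem kap_lt_one : kap < 1 := by linarith [kap_lt, H_lt]

theorem gen : ∃ A C : ℝ, 0 < A ∧ 0 < C ∧ Gen T kap A C := by
  obtain ⟨μ, C, hμ, hC, h⟩ := stop (1 / 1000000) (by norm_num) le_rfl
  refine inj_sets (μ := min μ (1 / 4)) (κ := kap) (C₁ := C) (by positivity) (min_le_right _ _)
    kap_gt kap_lt_one.le hC ?_
  intro X hX u
  refine le_trans ?_ (h X hX u)
  have hfin : {n : ℕ | u < n ∧ (n : ℝ) ≤ u + X ∧ (n : ℝ) ≤ X ^ μ *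
      (T^[⌊(1 + 1 / 1000000) * Real.logb 2 X⌋₊] n : ℕ)}.Finite := by
    apply (Set.finite_Iic ⌊(u : ℝ) + X⌋₊).subset
    intro n hn
    rw [Set.mem_Iic]
    exact Nat.le_floor hn.2.1
  have := Set.ncard_le_ncard (s := {n : ℕ | u < n ∧ (n : ℝ) ≤ u + X ∧ (n : ℝ) ≤ X ^ (min μ (1 / 4)) *
      (T^[⌊(1 + 1 / 1000000) * Real.logb 2 X⌋₊] n : ℕ)}) (t := _) (by
      intro n hn
      refine ⟨hn.1, hn.2.1, hn.2.2.trans ?_⟩
      have : X ^ (min μ (1 / 4)) ≤ X ^ μ := Real.rpow_le_rpow_of_exponent_le hX (min_le_left _ _)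
      gcongr) hfin
  exact_mod_cast this

/-! ## The Syracuse map on the negative odd integers -/

/-- The Syracuse map. -/
def Syr (N : ℤ) : ℤ := (3 * N + 1) / 2 ^ padicValInt 2 (3 * N + 1)

/-- the shortcut map on all the integers -/
def TZ (x : ℤ) : ℤ := if x % 2 = 0 then x / 2 else (3 * x + 1) / 2

lemma TZ_neg (n : ℕ) : TZ (-(n : ℤ)) = -((T n : ℕ) : ℤ) := by
  unfold TZ T
  by_cases h : n % 2 = 0
  · rw [if_pos (by omega), if_pos h]; omega
  · rw [if_neg (by omega), if_neg h]; omega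

lemma TZ_iter_neg (k n : ℕ) : TZ^[k] (-(n : ℤ)) = -((T^[k] n : ℕ) : ℤ) := by
  induction k with
  | zero => rfl
  | succ k ih => rw [Function.iterate_succ_apply', Function.iterate_succ_apply', ih, TZ_neg]

lemma T_half (m : ℕ) : ∀ j : ℕ, T^[j] (2 ^ j * m) = m := by
  intro j
  induction j with
  | zero => simp
  | succ j ih =>
    rw [Function.iterate_succ_apply]
    have : T (2 ^ (j + 1) * m) = 2 ^ j * m := by
      unfold T
      have h : 2 ^ (j + 1) * m = 2 * (2 ^ j * m) := by ring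
      rw [h, if_pos (by omega)]
      omega
    rw [this, ih]

/-- one step of the Syracuse map -/
lemma Syr_step {n : ℕ} (hn : n % 2 = 1) : ∃ v m : ℕ, 1 ≤ v ∧ m % 2 = 1 ∧ 2 ^ v * m = 3 * n - 1 ∧
    padicValInt 2 (3 * (-(n : ℤ)) + 1) = v ∧ Syr (-(n : ℤ)) = -(m : ℤ) ∧ T^[v] n = m := by
  have h1 : 3 * n - 1 ≠ 0 := by omega
  obtain ⟨v, m, hm, hvm⟩ := Nat.exists_eq_two_pow_mul_odd h1
  have hm2 : m % 2 = 1 := Nat.odd_iff.1 hm
  have hv : 1 ≤ v := by
    by_contra hcon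
    have : v = 0 := by omega
    rw [this] at hvm
    omega
  have hval : padicValInt 2 (3 * (-(n : ℤ)) + 1) = v := by
    unfold padicValInt
    have e1 : (3 * (-(n : ℤ)) + 1).natAbs = 2 ^ v * m := by omega
    rw [e1]
    rw [padicValNat.mul (by positivity) (by omega), padicValNat.prime_pow,
      padicValNat.eq_zero_of_not_dvd (by omega)]
    rfl
  refine ⟨v, m, hv, hm2, hvm.symm, hval, ?_, ?_⟩
  · unfold Syr
    rw [hval]
    have e1 : (3 * (-(n : ℤ)) + 1) = (2 ^ v : ℤ) * (-(m : ℤ)) := by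
      have : ((2 ^ v * m : ℕ) : ℤ) = 3 * n - 1 := by omega
      push_cast at this
      linarith
    rw [e1]
    exact Int.mul_ediv_cancel_left _ (by positivity)
  · obtain ⟨w, rfl⟩ : ∃ w, v = w + 1 := ⟨v - 1, by omega⟩
    rw [Function.iterate_succ_apply]
    have : T n = 2 ^ w * m := by
      unfold T
      rw [if_neg (by omega)]
      have h2 : 2 ^ (w + 1) * m = 2 * (2 ^ w * m) := by ring
      omega
    rw [this, T_half]

/-- the iterates of the Syracuse map -/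
lemma Syr_iter {n : ℕ} (hn : n % 2 = 1) : ∀ k : ℕ, ∃ j : ℕ, k ≤ j ∧ (T^[j] n) % 2 = 1 ∧
    Syr^[k] (-(n : ℤ)) = -((T^[j] n : ℕ) : ℤ) := by
  intro k
  induction k with
  | zero => exact ⟨0, le_rfl, hn, rfl⟩
  | succ k ih =>
    obtain ⟨j, hj, h1, h2⟩ := ih
    obtain ⟨v, m, hv, hm, _, _, h3, h4⟩ := Syr_step h1
    refine ⟨v + j, by omega, ?_, ?_⟩
    · rw [Function.iterate_add_apply, h4]; exact hm
    · rw [Function.iterate_succ_apply', h2, h3, Function.iterate_add_apply, h4]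

lemma Syr_neg {N : ℤ} (hN : N < 0) (h2 : N % 2 = 1) (k : ℕ) :
    Syr^[k] N < 0 ∧ Syr^[k] N % 2 = 1 := by
  obtain ⟨n, rfl⟩ : ∃ n : ℕ, N = -(n : ℤ) := ⟨N.natAbs, by omega⟩
  obtain ⟨j, _, h3, h4⟩ := Syr_iter (n := n) (by omega) k
  rw [h4]
  omega

lemma orbit_T {N : ℤ} (hN : N < 0) (h2 : N % 2 = 1) {m k : ℕ} (h : Syr^[k] N = -(m : ℤ)) :
    ∃ j, T^[j] N.natAbs = m := by
  obtain ⟨n, rfl⟩ : ∃ n : ℕ, N = -(n : ℤ) := ⟨N.natAbs, by omega⟩
  obtain ⟨j, _, h3, h4⟩ := Syr_iter (n := n) (by omega) k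
  refine ⟨j, ?_⟩
  rw [h4] at h
  simp only [Int.natAbs_neg, Int.natAbs_natCast]
  omega

lemma per_T {N : ℤ} (hN : N < 0) (h2 : N % 2 = 1) {k : ℕ} (hk : 1 ≤ k) (h : Syr^[k] N = N) :
    N.natAbs ∈ Function.periodicPts T := by
  obtain ⟨n, rfl⟩ : ∃ n : ℕ, N = -(n : ℤ) := ⟨N.natAbs, by omega⟩
  obtain ⟨j, hj, h3, h4⟩ := Syr_iter (n := n) (by omega) k
  simp only [Int.natAbs_neg, Int.natAbs_natCast]
  apply Function.mk_mem_periodicPts (n := j) (by omega)
  rw [h4] at h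
  show T^[j] n = n
  omega

/-- the sparseness of the orbits and of the cyclic points -/
theorem sparse : ∃ B : ℝ, 0 < B ∧ (∀ n : ℕ, Sp kap B (fun m => ∃ k, T^[k] n = m)) ∧
    Sp kap B (fun m => m ∈ Function.periodicPts T) := by
  obtain ⟨A, C₀, hA, hC₀, hgen⟩ := gen
  have hκ0 := kap_pos
  refine ⟨2 * C₀ + A * (1 + 1 / kap), by positivity, fun n => sp_traj hκ0 hA hC₀ hgen n, ?_⟩
  intro X hX u S hS
  refine (sp_per hgen X hX u S hS).trans ?_
  have : 0 ≤ X ^ kap := by positivity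
  have h2 : 0 < A * (1 + 1 / kap) := by positivity
  nlinarith

/-- sums of reciprocals -/
theorem recips : ∃ D : ℝ, 0 < D ∧ ∀ y : ℕ, 1 ≤ y →
    (∀ n : ℕ, ∀ F : Finset ℕ, (∀ m ∈ F, (∃ k, T^[k] n = m) ∧ y ≤ m) →
      ∑ m ∈ F, (1 : ℝ) / m ≤ D / (y : ℝ) ^ (1 - kap)) ∧
    (∀ F : Finset ℕ, (∀ m ∈ F, m ∈ Function.periodicPts T ∧ y ≤ m) →
      ∑ m ∈ F, (1 : ℝ) / m ≤ D / (y : ℝ) ^ (1 - kap)) := by
  obtain ⟨B, hB, h1, h2⟩ := sparse
  have hr1 : (2 : ℝ) ^ (kap - 1) < 1 :=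
    Real.rpow_lt_one_of_one_lt_of_neg (by norm_num) (by linarith [kap_lt_one])
  have hR0 : 0 < (1 - (2 : ℝ) ^ (kap - 1))⁻¹ := inv_pos.2 (by linarith)
  exact ⟨2 * B * (1 - 2 ^ (kap - 1))⁻¹, by positivity, fun y hy =>
    ⟨fun n F hF => recip_ge kap_lt_one kap_pos hB (h1 n) hy F hF,
     fun F hF => recip_ge kap_lt_one kap_pos hB h2 hy F hF⟩⟩

/-- the sum of the first `k` exponents -/
def exps (k : ℕ) (N : ℤ) : ℕ := ∑ i ∈ range k, padicValInt 2 (3 * Syr^[i] N + 1)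

/-- the product formula, as a two-sided bound -/
lemma mult {N : ℤ} (hN : N < 0) (hodd : N % 2 = 1) : ∀ k : ℕ,
    (2 : ℝ) ^ exps k N * |((Syr^[k] N : ℤ) : ℝ)| ≤ 3 ^ k * |(N : ℝ)| ∧
    (3 : ℝ) ^ k * |(N : ℝ)| ≤ 2 ^ exps k N * |((Syr^[k] N : ℤ) : ℝ)| *
      Real.exp (∑ i ∈ range k, (1 : ℝ) / (2 * |((Syr^[i] N : ℤ) : ℝ)|)) := by
  intro k
  induction k with
  | zero => simp [exps]
  | succ k ih =>
    obtain ⟨h1, h2⟩ := ih
    obtain ⟨hneg, hod⟩ := Syr_neg hN hodd k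
    obtain ⟨n, hn⟩ : ∃ n : ℕ, Syr^[k] N = -(n : ℤ) := ⟨(Syr^[k] N).natAbs, by omega⟩
    have hn2 : n % 2 = 1 := by omega
    obtain ⟨v, m, hv, hm, hvm, hval, hs, _⟩ := Syr_step hn2
    have hexps : exps (k + 1) N = exps k N + v := by
      unfold exps
      rw [sum_range_succ, hn, hval]
    have hn1 : (1 : ℝ) ≤ n := by exact_mod_cast (by omega : 1 ≤ n)
    have e1 : |((Syr^[k] N : ℤ) : ℝ)| = n := by
      rw [hn]; push_cast; rw [abs_neg, abs_of_nonneg (by positivity)]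
    have e2 : |((Syr^[k + 1] N : ℤ) : ℝ)| = m := by
      rw [Function.iterate_succ_apply', hn, hs]; push_cast; rw [abs_neg, abs_of_nonneg (by positivity)]
    have e3 : (2 : ℝ) ^ v * m = 3 * n - 1 := by
      have h3 : ((2 ^ v * m : ℕ) : ℤ) = 3 * n - 1 := by omega
      have h4 : (((2 ^ v * m : ℕ) : ℤ) : ℝ) = ((3 * n - 1 : ℤ) : ℝ) := by rw [h3]
      push_cast at h4
      exact h4
    rw [e1] at h1 h2
    rw [e2, hexps, pow_add, pow_succ, sum_range_succ, Real.exp_add, e1]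
    have e4 : (2 : ℝ) ^ exps k N * 2 ^ v * m = 2 ^ exps k N * (3 * n - 1) := by
      rw [mul_assoc, e3]
    rw [e4]
    set P := (2 : ℝ) ^ exps k N with hP
    have hP0 : 0 < P := by positivity
    set Ex := Real.exp (∑ i ∈ range k, (1 : ℝ) / (2 * |((Syr^[i] N : ℤ) : ℝ)|)) with hEx
    have hEx0 : 0 < Ex := Real.exp_pos _
    constructor
    · nlinarith
    · have h3 : 3 * (n : ℝ) ≤ (3 * n - 1) * Real.exp (1 / (2 * n)) := by
        have h4 := Real.add_one_le_exp (1 / (2 * (n : ℝ)))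
        have h5 : 3 * (n : ℝ) ≤ (3 * n - 1) * (1 / (2 * n) + 1) := by
          have h6 : (3 * (n : ℝ) - 1) * (1 / (2 * n) + 1) = 3 * n + 1 / 2 - 1 / (2 * n) := by
            field_simp
            ring
          have h7 : 1 / (2 * (n : ℝ)) ≤ 1 / 2 := by
            apply one_div_le_one_div_of_le (by norm_num)
            linarith
          rw [h6]
          linarith
        calc 3 * (n : ℝ) ≤ _ := h5
          _ ≤ _ := mul_le_mul_of_nonneg_left h4 (by linarith)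
      calc (3 : ℝ) ^ k * 3 * |(N : ℝ)| = 3 * (3 ^ k * |(N : ℝ)|) := by ring
        _ ≤ 3 * (P * n * Ex) := by gcongr
        _ = P * (3 * n) * Ex := by ring
        _ ≤ P * ((3 * n - 1) * Real.exp (1 / (2 * n))) * Ex := by gcongr
        _ = P * (3 * ↑n - 1) * (Ex * Real.exp (1 / (2 * ↑n))) := by ring

end Pool.Agent.K1H6.ColN
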