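import Mathlib
import Pool.Agent.K1H6.ColN3

set_option autoImplicit false

open Filter Topology Finset

namespace Pool.Agent.K1H6.ColN

/-- from sets of negative integers to sets of natural numbers -/
lemma sum_abs {D : ℝ} {Q : ℕ → Prop} (h : ∀ F : Finset ℕ, (∀ m ∈ F, Q m) → ∑ m ∈ F, (1 : ℝ) / m ≤ D)
    (F : Finset ℤ) (hF : ∀ N ∈ F, N ≤ 0 ∧ Q N.natAbs) : ∑ N ∈ F, (1 : ℝ) / |(N : ℝ)| ≤ D := by
  classical
  have h1 : ∑ m ∈ F.image Int.natAbs, (1 : ℝ) / m = ∑ N ∈ F, (1 : ℝ) / |(N : ℝ)| := by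
    rw [Finset.sum_image]
    · apply Finset.sum_congr rfl
      intro N _
      rw [Nat.cast_natAbs, Int.cast_abs]
    · intro a ha b hb hab
      have h2 := (hF a ha).1
      have h3 := (hF b hb).1
      omega
  rw [← h1]
  apply h
  intro m hm
  rw [Finset.mem_image] at hm
  obtain ⟨N, hN, rfl⟩ := hm
  exact (hF N hN).2

/-- the linear form of a cycle -/
lemma lin_form {N : ℤ} (hN : N < 0) (hodd : N % 2 = 1) {k : ℕ} (hk : 1 ≤ k) (hper : Syr^[k] N = N) :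
    0 < (k : ℝ) * Real.log 3 - (exps k N : ℝ) * Real.log 2 ∧
    (k : ℝ) * Real.log 3 - (exps k N : ℝ) * Real.log 2 ≤
      ∑ i ∈ range k, (1 : ℝ) / (2 * |((Syr^[i] N : ℤ) : ℝ)|) := by
  obtain ⟨h1, h2⟩ := mult hN hodd k
  rw [hper] at h1 h2
  have hn0 : (0 : ℝ) < |(N : ℝ)| := by
    rw [abs_pos]
    exact_mod_cast hN.ne
  have h3 : (2 : ℝ) ^ exps k N ≤ 3 ^ k := le_of_mul_le_mul_right h1 hn0
  have h3' : 2 ^ exps k N ≤ 3 ^ k := by exact_mod_cast h3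
  have h4 : (3 : ℝ) ^ k ≤ 2 ^ exps k N * Real.exp (∑ i ∈ range k, (1 : ℝ) / (2 * |((Syr^[i] N : ℤ) : ℝ)|)) := by
    apply le_of_mul_le_mul_right _ hn0
    calc _ ≤ _ := h2
      _ = _ := by ring
  have hne : 2 ^ exps k N ≠ 3 ^ k := by
    intro heq
    rcases Nat.eq_zero_or_pos (exps k N) with h0 | h0
    · rw [h0, pow_zero] at heq
      have : 3 ^ 1 ≤ 3 ^ k := Nat.pow_le_pow_right (by norm_num) hk
      omega
    · have e1 : 3 ^ k % 2 = 1 := by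
        rw [Nat.pow_mod]; norm_num
      have e2 : 2 ^ exps k N % 2 = 0 := by
        obtain ⟨j, hj⟩ : ∃ j, exps k N = j + 1 := ⟨exps k N - 1, by omega⟩
        rw [hj, pow_succ]; omega
      omega
  have h5 : (2 : ℝ) ^ exps k N < 3 ^ k := by
    have : 2 ^ exps k N < 3 ^ k := lt_of_le_of_ne h3' hne
    exact_mod_cast this
  constructor
  · have h6 := Real.log_lt_log (by positivity) h5
    rw [Real.log_pow, Real.log_pow] at h6
    linarith
  · have h6 := Real.log_le_log (by positivity) h4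
    rw [Real.log_mul (by positivity) (Real.exp_pos _).ne', Real.log_pow, Real.log_pow, Real.log_exp] at h6
    linarith

/-- the terms of a cycle -/
noncomputable def cyc (N : ℤ) : Finset ℤ := (range (Function.minimalPeriod Syr N)).image (fun i => Syr^[i] N)

lemma sum_cyc {N : ℤ} (f : ℤ → ℝ) :
    ∑ x ∈ cyc N, f x = ∑ i ∈ range (Function.minimalPeriod Syr N), f (Syr^[i] N) := by
  unfold cyc
  rw [Finset.sum_image]
  intro i hi j hj hij
  rw [coe_range, Set.mem_Iio] at hi hj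
  exact (Function.iterate_eq_iterate_iff_of_lt_minimalPeriod hi hj).1 hij

/-- the linear forms of different cycles -/
theorem forms {D : ℝ} {y : ℕ} (hy : 1 ≤ y)
    (hD : ∀ F : Finset ℤ, (∀ N ∈ F, N < 0 ∧ N % 2 = 1 ∧ N ∈ Function.periodicPts Syr ∧ N ≤ -(y : ℤ)) →
      ∑ N ∈ F, (1 : ℝ) / |(N : ℝ)| ≤ D)
    (M : Finset ℤ) (hM : ∀ N ∈ M, N < 0 ∧ N % 2 = 1 ∧ N ∈ Function.periodicPts Syr ∧
      ∀ i, Syr^[i] N ≤ -(y : ℤ))
    (hdis : ∀ N ∈ M, ∀ N' ∈ M, ∀ i, Syr^[i] N = N' → N = N') :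
    ∑ N ∈ M, (((Function.minimalPeriod Syr N : ℕ) : ℝ) * Real.log 3 -
      (exps (Function.minimalPeriod Syr N) N : ℝ) * Real.log 2) ≤ D / 2 := by
  classical
  have h1 : ∀ N ∈ M, (((Function.minimalPeriod Syr N : ℕ) : ℝ) * Real.log 3 -
      (exps (Function.minimalPeriod Syr N) N : ℝ) * Real.log 2) ≤ (∑ x ∈ cyc N, (1 : ℝ) / |(x : ℝ)|) / 2 := by
    intro N hN
    obtain ⟨hneg, hodd, hper, hge⟩ := hM N hN
    have h2 := (lin_form hneg hodd (Function.minimalPeriod_pos_of_mem_periodicPts hper)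
      (Function.isPeriodicPt_minimalPeriod Syr N)).2
    refine h2.trans (le_of_eq ?_)
    rw [sum_cyc, Finset.sum_div]
    apply Finset.sum_congr rfl
    intro i _
    rw [div_div, mul_comm]
  have hpd : (M : Set ℤ).PairwiseDisjoint cyc := by
    intro a ha b hb hab
    show Disjoint (cyc a) (cyc b)
    rw [Finset.disjoint_left]
    intro x hx1 hx2
    unfold cyc at hx1 hx2
    rw [Finset.mem_image] at hx1 hx2
    obtain ⟨i, hi, hia⟩ := hx1
    obtain ⟨j, hj, hjb⟩ := hx2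
    apply hab
    rw [Finset.mem_range] at hj
    apply hdis a ha b hb ((Function.minimalPeriod Syr b - j) + i)
    rw [Function.iterate_add_apply, hia, ← hjb, ← Function.iterate_add_apply,
      show Function.minimalPeriod Syr b - j + j = Function.minimalPeriod Syr b by omega]
    exact Function.isPeriodicPt_minimalPeriod Syr b
  have hU : ∑ x ∈ M.biUnion cyc, (1 : ℝ) / |(x : ℝ)| ≤ D := by
    apply hD
    intro x hx
    rw [Finset.mem_biUnion] at hx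
    obtain ⟨N, hN, hxN⟩ := hx
    unfold cyc at hxN
    rw [Finset.mem_image] at hxN
    obtain ⟨i, _, rfl⟩ := hxN
    obtain ⟨hneg, hodd, hper, hge⟩ := hM N hN
    refine ⟨(Syr_neg hneg hodd i).1, (Syr_neg hneg hodd i).2, ?_, hge i⟩
    exact ((Function.bijOn_periodicPts Syr).mapsTo.iterate i) hper
  rw [Finset.sum_biUnion hpd] at hU
  calc _ ≤ ∑ N ∈ M, (∑ x ∈ cyc N, (1 : ℝ) / |(x : ℝ)|) / 2 := Finset.sum_le_sum h1
    _ = (∑ N ∈ M, ∑ x ∈ cyc N, (1 : ℝ) / |(x : ℝ)|) / 2 := by rw [Finset.sum_div]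
    _ ≤ D / 2 := by gcongr

/-- sums of reciprocals, for the Syracuse map -/
theorem recips_syr : ∃ D : ℝ, 0 < D ∧ ∀ y : ℕ, 1 ≤ y →
    (∀ N : ℤ, N < 0 → N % 2 = 1 → ∀ F : Finset ℤ, (∀ M ∈ F, (∃ k, Syr^[k] N = M) ∧ M ≤ -(y : ℤ)) →
      ∑ M ∈ F, (1 : ℝ) / |(M : ℝ)| ≤ D / (y : ℝ) ^ (1 - kap)) ∧
    (∀ F : Finset ℤ, (∀ N ∈ F, N < 0 ∧ N % 2 = 1 ∧ N ∈ Function.periodicPts Syr ∧ N ≤ -(y : ℤ)) →
      ∑ N ∈ F, (1 : ℝ) / |(N : ℝ)| ≤ D / (y : ℝ) ^ (1 - kap)) := by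
  obtain ⟨D, hD0, hD⟩ := recips
  refine ⟨D, hD0, fun y hy => ⟨fun N hN hodd F hF => ?_, fun F hF => ?_⟩⟩
  · apply sum_abs (Q := fun m => (∃ k, T^[k] N.natAbs = m) ∧ y ≤ m) ((hD y hy).1 N.natAbs)
    intro M hM
    obtain ⟨⟨k, hk⟩, h2⟩ := hF M hM
    refine ⟨by omega, ?_, by omega⟩
    exact orbit_T hN hodd (k := k) (by omega)
  · apply sum_abs (Q := fun m => m ∈ Function.periodicPts T ∧ y ≤ m) (hD y hy).2
    intro N hN
    obtain ⟨h1, h2, ⟨k, hk, h3⟩, h4⟩ := hF N hN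
    exact ⟨h1.le, per_T h1 h2 hk h3, by omega⟩

end Pool.Agent.K1H6.ColN
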