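import Mathlib

/-!
# Automata with regular action, the group `𝔾_Y`, the wreath power `W_Y` and the restricted wreath
product `Y ≀ ℤ`
-/

set_option autoImplicit false

namespace Pool.Agent.K1H6.Lamp

/-! ## The maps `a_i` and the group `𝔾_Y` -/

section Automaton

variable {Y : Type} [Group Y]

/-- The map `a_i : Y^* → Y^*` of the automaton `𝒜_Y`: `a_i(∅) = ∅` and
`a_i(j w) = (i j) a_{j⁻¹ i}(w)`. -/
def act : Y → List Y → List Y
  | _, [] => []
  | i, j :: w => (i * j) :: act (j⁻¹ * i) w

/-- The inverse of `a_i`. -/
def actInv : Y → List Y → List Y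
  | _, [] => []
  | i, o :: w => (i⁻¹ * o) :: actInv ((i⁻¹ * o)⁻¹ * i) w

theorem actInv_act (i : Y) (w : List Y) : actInv i (act i w) = w := by
  induction w generalizing i with
  | nil => rfl
  | cons j w ih => simp [act, actInv, ih]

theorem act_actInv (i : Y) (w : List Y) : act i (actInv i w) = w := by
  induction w generalizing i with
  | nil => rfl
  | cons j w ih => simp [act, actInv, ih]

/-- The bijection `a_i` of `Y^*`. -/
def stateMap (i : Y) : Equiv.Perm (List Y) where
  toFun := act i
  invFun := actInv i
  left_inv := actInv_act i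
  right_inv := act_actInv i

/-- The group `𝔾_Y` generated by the bijections `a_i`, `i ∈ Y`. -/
def GY (Y : Type) [Group Y] : Subgroup (Equiv.Perm (List Y)) :=
  Subgroup.closure (Set.range (stateMap : Y → Equiv.Perm (List Y)))

/-! ## The finite state wreath power `W_Y` -/

/-- The map computed by an automaton with state set `Q`, transition function `δ`, and output
function `(q, x) ↦ g q * x` at the state `q`. -/
def run {Q : Type} (δ : Q → Y → Q) (g : Q → Y) : Q → List Y → List Y
  | _, [] => []
  | q, x :: w => (g q * x) :: run δ g (δ q x) w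

theorem length_run {Q : Type} (δ : Q → Y → Q) (g : Q → Y) (q : Q) (w : List Y) :
    (run δ g q w).length = w.length := by
  induction w generalizing q with
  | nil => rfl
  | cons x w ih => simp [run, ih]

theorem run_comp {Q R : Type} (δ : Q → Y → Q) (g : Q → Y) (ε : R → Y → R) (h : R → Y)
    (q : Q) (r : R) (w : List Y) :
    run δ g q (run ε h r w) =
      run (fun (s : Q × R) x => (δ s.1 (h s.2 * x), ε s.2 x)) (fun s => g s.1 * h s.2) (q, r) w := by
  induction w generalizing q r with
  | nil => rfl
  | cons x w ih => simp [run, ih, mul_assoc]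

theorem run_inv {Q : Type} (δ : Q → Y → Q) (g : Q → Y) (q : Q) (w : List Y) :
    run δ g q (run (fun s x => δ s ((g s)⁻¹ * x)) (fun s => (g s)⁻¹) q w) = w := by
  induction w generalizing q with
  | nil => rfl
  | cons x w ih => simp [run, ih]

/-- The finite state wreath power `W_Y`: the bijections of `Y^*` which are defined at some state of
some finite automaton over `Y` with output maps left multiplications. -/
def WY (Y : Type) [Group Y] : Subgroup (Equiv.Perm (List Y)) where
  carrier := {f | ∃ (Q : Type) (_ : Finite Q) (δ : Q → Y → Q) (g : Q → Y) (q : Q),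
    ∀ w, f w = run δ g q w}
  one_mem' := ⟨Unit, inferInstance, fun _ _ => (), fun _ => 1, (), fun w => by
    induction w with
    | nil => rfl
    | cons x w ih => simpa [run] using ih⟩
  mul_mem' := by
    rintro a b ⟨Q, hQ, δ, g, q, ha⟩ ⟨R, hR, ε, h, r, hb⟩
    refine ⟨Q × R, inferInstance, fun (s : Q × R) x => (δ s.1 (h s.2 * x), ε s.2 x),
      fun s => g s.1 * h s.2, (q, r), fun w => ?_⟩
    rw [Equiv.Perm.mul_apply, hb, ha, run_comp]
  inv_mem' := by
    rintro a ⟨Q, hQ, δ, g, q, ha⟩
    refine ⟨Q, hQ, fun s x => δ s ((g s)⁻¹ * x), fun s => (g s)⁻¹, q, fun w => ?_⟩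
    rw [Equiv.Perm.inv_eq_iff_eq, ha, run_inv]

/-- Every map defined at a state of a finite automaton with output maps left multiplications is a
bijection, so it belongs to `W_Y`. -/
theorem exists_mem_WY {Q : Type} [Finite Q] (δ : Q → Y → Q) (g : Q → Y) (q : Q) :
    ∃ f ∈ WY Y, ∀ w, f w = run δ g q w := by
  have h1 : ∀ w, run (fun s x => δ s ((g s)⁻¹ * x)) (fun s => (g s)⁻¹) q (run δ g q w) = w := by
    intro w
    have := run_inv (fun s x => δ s ((g s)⁻¹ * x)) (fun s => (g s)⁻¹) q w
    simpa using this
  let f : Equiv.Perm (List Y) := ⟨run δ g q, _, h1, run_inv δ g q⟩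
  exact ⟨f, ⟨Q, inferInstance, δ, g, q, fun w => rfl⟩, fun w => rfl⟩

theorem GY_le_WY (Y : Type) [Group Y] [Finite Y] : GY Y ≤ WY Y := by
  rw [GY, Subgroup.closure_le]
  rintro _ ⟨i, rfl⟩
  refine ⟨Y, inferInstance, fun i j => j⁻¹ * i, fun i => i, i, fun w => ?_⟩
  change act i w = _
  induction w generalizing i with
  | nil => rfl
  | cons x w ih => simp [run, act, ih]

theorem length_of_mem_WY {f : Equiv.Perm (List Y)} (hf : f ∈ WY Y) (w : List Y) :
    (f w).length = w.length := by
  obtain ⟨Q, _, δ, g, q, h⟩ := hf
  rw [h, length_run]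

end Automaton

/-! ## The restricted wreath product `Y ≀ ℤ` -/

/-- The group `⊕_{n ∈ ℤ} Y` of the functions `ℤ → Y` with finite support. -/
def base (Y : Type) [Group Y] : Subgroup (ℤ → Y) where
  carrier := {f | (Function.mulSupport f).Finite}
  one_mem' := by simp
  mul_mem' := fun {a b} ha hb =>
    (ha.union hb).subset (Function.mulSupport_mul a b)
  inv_mem' := fun {a} ha => by
    change (Function.mulSupport a⁻¹).Finite
    rwa [Function.mulSupport_inv]

/-- The shift of the base group: `(shift n f) m = f (m - n)`. -/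
def shift (Y : Type) [Group Y] (n : ℤ) : base Y ≃* base Y where
  toFun f := ⟨fun m => f.1 (m - n), by
    have h := f.2
    change (Function.mulSupport fun m => f.1 (m - n)).Finite
    refine ((h : (Function.mulSupport f.1).Finite).image (· + n)).subset ?_
    intro m hm
    exact ⟨m - n, hm, by simp⟩⟩
  invFun f := ⟨fun m => f.1 (m + n), by
    have h := f.2
    change (Function.mulSupport fun m => f.1 (m + n)).Finite
    refine ((h : (Function.mulSupport f.1).Finite).image (· - n)).subset ?_
    intro m hm
    exact ⟨m + n, hm, by simp⟩⟩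
  left_inv f := by ext m; simp
  right_inv f := by ext m; simp
  map_mul' f g := by ext m; rfl

/-- The action of `ℤ` on the base group by shifts. -/
def shiftHom (Y : Type) [Group Y] : Multiplicative ℤ →* MulAut (base Y) where
  toFun n := shift Y n.toAdd
  map_one' := by ext f m; simp [shift]
  map_mul' a b := by
    ext f m
    simp [shift, sub_sub]

/-- The lamplighter group `Y ≀ ℤ = (⊕_{n ∈ ℤ} Y) ⋊ ℤ`, where `ℤ` acts by shifting coordinates. -/
abbrev Lamplighter (Y : Type) [Group Y] : Type :=
  base Y ⋊[shiftHom Y] Multiplicative ℤ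

section Wreath

variable {Y : Type} [Group Y]

/-- The element of the base group with value `y` at `n` and `1` elsewhere. -/
def lamp (n : ℤ) (y : Y) : base Y := ⟨Pi.mulSingle n y, by
  change (Function.mulSupport _).Finite
  exact (Set.finite_singleton n).subset Pi.mulSupport_mulSingle_subset⟩

theorem lamp_commute {m n : ℤ} (h : m ≠ n) (y z : Y) : Commute (lamp m y) (lamp n z) := by
  apply Subtype.ext
  exact Pi.mulSingle_commute (f := fun _ : ℤ => Y) h y z

theorem shift_lamp (n : ℤ) (y : Y) : shift Y n (lamp 0 y) = lamp n y := by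
  apply Subtype.ext
  funext m
  change Pi.mulSingle (M := fun _ : ℤ => Y) 0 y (m - n) = Pi.mulSingle (M := fun _ : ℤ => Y) n y m
  by_cases h : m = n
  · subst h; simp
  · rw [Pi.mulSingle_eq_of_ne h, Pi.mulSingle_eq_of_ne (by omega)]

/-- Let `Γ = Y ≀ ℤ` act on a finite set. Then the commutators of the copy of `Y` at `0` act
trivially. -/
theorem finite_action {X : Type} [Finite X] (ρ : Lamplighter Y →* Equiv.Perm X) (y z : Y) :
    ρ (SemidirectProduct.inl (lamp 0 y)) * ρ (SemidirectProduct.inl (lamp 0 z)) =
      ρ (SemidirectProduct.inl (lamp 0 z)) * ρ (SemidirectProduct.inl (lamp 0 y)) := by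
  classical
  set t : Lamplighter Y := SemidirectProduct.inr (Multiplicative.ofAdd (1 : ℤ)) with ht
  have hfin : IsOfFinOrder (ρ t) := isOfFinOrder_of_finite _
  obtain ⟨N, hN, hpow⟩ := hfin.exists_pow_eq_one
  have hconj : t ^ N * SemidirectProduct.inl (lamp 0 z) * (t ^ N)⁻¹ =
      (SemidirectProduct.inl (lamp N z) : Lamplighter Y) := by
    rw [ht, ← map_pow, ← map_inv, ← SemidirectProduct.inl_aut]
    congr 1
    have : (shiftHom Y) (Multiplicative.ofAdd (1 : ℤ) ^ N) = shift Y N := by
      rw [← ofAdd_nsmul]
      simp [shiftHom]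
    rw [this, shift_lamp]
  have h1 : ρ (SemidirectProduct.inl (lamp 0 z)) = ρ (SemidirectProduct.inl (lamp N z)) := by
    rw [← hconj, map_mul, map_mul, map_inv, map_pow, hpow]
    simp
  rw [h1, ← map_mul, ← map_mul, ← map_mul, ← map_mul, (lamp_commute (by omega) y z).eq]

/-- A faithful action of `Y ≀ ℤ` on `Y^*` which preserves the length of words exists only if `Y` is
abelian. -/
theorem comm_of_injective [Finite Y] (F : Lamplighter Y →* Equiv.Perm (List Y))
    (hF : Function.Injective F) (hlen : ∀ g w, (F g w).length = w.length) (y z : Y) :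
    y * z = z * y := by
  have key : F (SemidirectProduct.inl (lamp 0 y)) * F (SemidirectProduct.inl (lamp 0 z)) =
      F (SemidirectProduct.inl (lamp 0 z)) * F (SemidirectProduct.inl (lamp 0 y)) := by
    ext1 w
    let X := {l : List Y // l.length = w.length}
    have : Finite X := (List.finite_length_eq Y w.length).to_subtype
    let ρ : Lamplighter Y →* Equiv.Perm X :=
      { toFun := fun g =>
          { toFun := fun l => ⟨F g l.1, by rw [hlen, l.2]⟩
            invFun := fun l => ⟨F g⁻¹ l.1, by rw [hlen, l.2]⟩
            left_inv := fun l => by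
              apply Subtype.ext
              change F g⁻¹ (F g l.1) = l.1
              rw [← Equiv.Perm.mul_apply, ← map_mul]; simp
            right_inv := fun l => by
              apply Subtype.ext
              change F g (F g⁻¹ l.1) = l.1
              rw [← Equiv.Perm.mul_apply, ← map_mul]; simp }
        map_one' := by ext1 l; apply Subtype.ext; simp
        map_mul' := fun a b => by
          ext1 l; apply Subtype.ext; simp [Equiv.Perm.mul_apply] }
    have h := finite_action ρ y z
    have h2 := congrArg (fun e : Equiv.Perm X => (e ⟨w, rfl⟩).1) h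
    simpa [ρ, Equiv.Perm.mul_apply] using h2
  rw [← map_mul, ← map_mul, ← map_mul, ← map_mul] at key
  have h3 := SemidirectProduct.inl_injective (hF key)
  have h4 := congrArg (fun f : base Y => f.1 0) h3
  simpa [lamp] using h4

end Wreath

end Pool.Agent.K1H6.Lamp
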