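import Pool.Agent.R443.Nu2c

/-!
# Partitions into three part sizes modulo 2

`ν₃(n)` has the parity of the number of the solutions of `(x + y)² + 2 x z = n` in positive
integers (conjugation of partitions), and further involutions show that it is even for many `n`.
-/

set_option autoImplicit false

namespace Pool.Agent.K1H6.Nu3

open Finset Pool.Agent.R443.Nu2

/-- Partitions with the part sizes `x < x + y < x + y + z` and multiplicities `t`, `s`, `r`. -/
def S3 (n : ℕ) : Finset ((ℕ × ℕ × ℕ) × (ℕ × ℕ × ℕ)) :=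
  ((Icc 1 n ×ˢ (Icc 1 n ×ˢ Icc 1 n)) ×ˢ (Icc 1 n ×ˢ (Icc 1 n ×ˢ Icc 1 n))).filter
    (fun q => q.1.1 * q.2.1 + q.1.1 * q.2.2.1 + q.1.2.1 * q.2.1 + q.1.1 * q.2.2.2 +
      q.1.2.2 * q.2.1 + q.1.2.1 * q.2.2.1 = n)

theorem mem_S3 {n x y z r s t : ℕ} : ((x, y, z), (r, s, t)) ∈ S3 n ↔
    (1 ≤ x ∧ 1 ≤ y ∧ 1 ≤ z) ∧ (1 ≤ r ∧ 1 ≤ s ∧ 1 ≤ t) ∧
      x * r + x * s + y * r + x * t + z * r + y * s = n := by
  unfold S3
  simp only [mem_filter, mem_product, mem_Icc]
  constructor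
  · rintro ⟨⟨⟨⟨h1, _⟩, ⟨h2, _⟩, h3, _⟩, ⟨h4, _⟩, ⟨h5, _⟩, h6, _⟩, h⟩
    exact ⟨⟨h1, h2, h3⟩, ⟨h4, h5, h6⟩, h⟩
  · rintro ⟨⟨h1, h2, h3⟩, ⟨h4, h5, h6⟩, h⟩
    have e1 : x ≤ x * r := Nat.le_mul_of_pos_right _ h4
    have e2 : s ≤ x * s := Nat.le_mul_of_pos_left _ h1
    have e3 : y ≤ y * r := Nat.le_mul_of_pos_right _ h4
    have e4 : t ≤ x * t := Nat.le_mul_of_pos_left _ h1
    have e5 : z ≤ z * r := Nat.le_mul_of_pos_right _ h4
    have e6 : r ≤ x * r := Nat.le_mul_of_pos_left _ h1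
    refine ⟨⟨⟨⟨h1, ?_⟩, ⟨h2, ?_⟩, h3, ?_⟩, ⟨h4, ?_⟩, ⟨h5, ?_⟩, h6, ?_⟩, h⟩ <;> omega

/-- the partition attached to an element of `S3` -/
def mk3 {n : ℕ} (x y z r s t : ℕ) (h : (1 ≤ x ∧ 1 ≤ y ∧ 1 ≤ z) ∧ (1 ≤ r ∧ 1 ≤ s ∧ 1 ≤ t) ∧
      x * r + x * s + y * r + x * t + z * r + y * s = n) : n.Partition where
  parts := Multiset.replicate r (x + y + z) + Multiset.replicate s (x + y) + Multiset.replicate t x
  parts_pos := by
    intro i hi
    simp only [Multiset.mem_add, Multiset.mem_replicate] at hi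
    omega
  parts_sum := by
    simp only [Multiset.sum_add, Multiset.sum_replicate, smul_eq_mul]
    rw [← h.2.2]; ring

theorem nu_three (n : ℕ) : nu 3 n = (S3 n).card := by
  classical
  symm
  unfold nu
  have hF : ∀ q ∈ S3 n, (1 ≤ q.1.1 ∧ 1 ≤ q.1.2.1 ∧ 1 ≤ q.1.2.2) ∧
      (1 ≤ q.2.1 ∧ 1 ≤ q.2.2.1 ∧ 1 ≤ q.2.2.2) ∧
      q.1.1 * q.2.1 + q.1.1 * q.2.2.1 + q.1.2.1 * q.2.1 + q.1.1 * q.2.2.2 +
      q.1.2.2 * q.2.1 + q.1.2.1 * q.2.2.1 = n := by
    rintro ⟨⟨x, y, z⟩, ⟨r, s, t⟩⟩ h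
    exact mem_S3.mp h
  apply Finset.card_bij (fun (q : (ℕ × ℕ × ℕ) × (ℕ × ℕ × ℕ)) hq =>
    mk3 q.1.1 q.1.2.1 q.1.2.2 q.2.1 q.2.2.1 q.2.2.2 (hF q hq))
  · rintro ⟨⟨x, y, z⟩, ⟨r, s, t⟩⟩ hq
    have h := hF _ hq
    simp only at h
    rw [mem_filter]
    refine ⟨mem_univ _, ?_⟩
    simp only [mk3, Multiset.toFinset_add, Multiset.toFinset_replicate]
    rw [if_neg (by omega), if_neg (by omega), if_neg (by omega)]
    rw [Finset.card_union_of_disjoint, Finset.card_union_of_disjoint, card_singleton,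
      card_singleton, card_singleton]
    · rw [disjoint_singleton]; omega
    · rw [disjoint_singleton_right, mem_union, mem_singleton, mem_singleton]; omega
  · rintro ⟨⟨x, y, z⟩, ⟨r, s, t⟩⟩ hq ⟨⟨x', y', z'⟩, ⟨r', s', t'⟩⟩ hq' h
    have h1 := hF _ hq
    have h1' := hF _ hq'
    simp only at h1 h1'
    have hp : Multiset.replicate r (x + y + z) + Multiset.replicate s (x + y) +
        Multiset.replicate t x = Multiset.replicate r' (x' + y' + z') +
        Multiset.replicate s' (x' + y') + Multiset.replicate t' x' :=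
      congrArg (fun p : n.Partition => p.parts) h
    have mem : ∀ w, (w = x + y + z ∨ w = x + y ∨ w = x) ↔
        (w = x' + y' + z' ∨ w = x' + y' ∨ w = x') := by
      intro w
      have h2 : w ∈ Multiset.replicate r (x + y + z) + Multiset.replicate s (x + y) +
        Multiset.replicate t x ↔ w ∈ Multiset.replicate r' (x' + y' + z') +
        Multiset.replicate s' (x' + y') + Multiset.replicate t' x' := by rw [hp]
      simp only [Multiset.mem_add, Multiset.mem_replicate] at h2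
      obtain ⟨⟨_, _, _⟩, ⟨_, _, _⟩, _⟩ := h1
      obtain ⟨⟨_, _, _⟩, ⟨_, _, _⟩, _⟩ := h1'
      constructor
      · intro hw
        have := h2.mp (by omega)
        omega
      · intro hw
        have := h2.mpr (by omega)
        omega
    have hx : x = x' := by
      have a1 := (mem x).mp (by omega)
      have a2 := (mem x').mpr (by omega)
      omega
    have hz : x + y + z = x' + y' + z' := by
      have a1 := (mem (x + y + z)).mp (by omega)
      have a2 := (mem (x' + y' + z')).mpr (by omega)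
      omega
    have hy : x + y = x' + y' := by
      have a1 := (mem (x + y)).mp (by omega)
      omega
    have cnt : ∀ w, (if x + y + z = w then r else 0) + (if x + y = w then s else 0) +
        (if x = w then t else 0) =
        (if x' + y' + z' = w then r' else 0) + (if x' + y' = w then s' else 0) +
        (if x' = w then t' else 0) := by
      intro w
      have := congrArg (Multiset.count w) hp
      simpa only [Multiset.count_add, Multiset.count_replicate] using this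
    have c1 := cnt (x + y + z)
    have c2 := cnt (x + y)
    have c3 := cnt x
    have hy' : y = y' := by omega
    have hz' : z = z' := by omega
    subst hx hy' hz'
    rw [if_pos rfl, if_neg (by omega), if_neg (by omega), if_pos rfl, if_neg (by omega),
      if_neg (by omega)] at c1
    rw [if_neg (by omega), if_pos rfl, if_neg (by omega), if_neg (by omega), if_pos rfl,
      if_neg (by omega)] at c2
    rw [if_neg (by omega), if_neg (by omega), if_pos rfl, if_neg (by omega), if_neg (by omega),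
      if_pos rfl] at c3
    simp only [Prod.mk.injEq, true_and]
    omega
  · intro p hp
    rw [mem_filter] at hp
    have hc := hp.2
    set f := p.parts.toFinset.orderEmbOfFin hc with hf
    have hr : ∀ w, w ∈ p.parts ↔ w = f 0 ∨ w = f 1 ∨ w = f 2 := by
      intro w
      have h1 : (w ∈ Set.range f) ↔ w ∈ p.parts := by
        rw [hf, Finset.range_orderEmbOfFin, mem_coe, Multiset.mem_toFinset]
      rw [← h1]
      constructor
      · rintro ⟨i, rfl⟩
        fin_cases i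
        · left; rfl
        · right; left; rfl
        · right; right; rfl
      · rintro (rfl | rfl | rfl)
        · exact ⟨0, rfl⟩
        · exact ⟨1, rfl⟩
        · exact ⟨2, rfl⟩
    have h01 : f 0 < f 1 := f.strictMono (by decide)
    have h12 : f 1 < f 2 := f.strictMono (by decide)
    have m0 : f 0 ∈ p.parts := (hr _).mpr (by left; rfl)
    have m1 : f 1 ∈ p.parts := (hr _).mpr (by right; left; rfl)
    have m2 : f 2 ∈ p.parts := (hr _).mpr (by right; right; rfl)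
    obtain ⟨x, hx⟩ : ∃ x, x = f 0 := ⟨_, rfl⟩
    obtain ⟨y, hy⟩ : ∃ y, f 1 = x + y := ⟨f 1 - x, by omega⟩
    obtain ⟨z, hz⟩ : ∃ z, f 2 = x + y + z := ⟨f 2 - (x + y), by omega⟩
    rw [← hx] at m0
    rw [hy] at m1
    rw [hz] at m2
    have hx1 : 1 ≤ x := p.parts_pos m0
    have hy1 : 1 ≤ y := by omega
    have hz1 : 1 ≤ z := by omega
    have hr' : ∀ w, w ∈ p.parts ↔ w = x ∨ w = x + y ∨ w = x + y + z := by
      intro w
      rw [hr w, ← hx, hy, hz]
    have hsub : p.parts = Multiset.replicate (p.parts.count (x + y + z)) (x + y + z) +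
        Multiset.replicate (p.parts.count (x + y)) (x + y) +
        Multiset.replicate (p.parts.count x) x := by
      ext a
      rw [Multiset.count_add, Multiset.count_add, Multiset.count_replicate,
        Multiset.count_replicate, Multiset.count_replicate]
      by_cases ha : a ∈ p.parts
      · rcases (hr' a).mp ha with rfl | rfl | rfl
        · rw [if_neg (by omega), if_neg (by omega), if_pos rfl, zero_add, zero_add]
        · rw [if_neg (by omega), if_pos rfl, if_neg (by omega), zero_add, add_zero]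
        · rw [if_pos rfl, if_neg (by omega), if_neg (by omega), add_zero, add_zero]
      · have h0 := Multiset.count_eq_zero_of_notMem ha
        rw [h0, if_neg (fun h : x + y + z = a => ha (h ▸ m2)),
          if_neg (fun h : x + y = a => ha (h ▸ m1)), if_neg (fun h : x = a => ha (h ▸ m0))]
    have hsum : (x + y + z) * p.parts.count (x + y + z) + (x + y) * p.parts.count (x + y) +
        x * p.parts.count x = n := by
      have h3 := p.parts_sum
      have h4 := congrArg Multiset.sum hsub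
      simp only [Multiset.sum_add, Multiset.sum_replicate, smul_eq_mul] at h4
      rw [mul_comm (x + y + z), mul_comm (x + y), mul_comm x]
      omega
    refine ⟨((x, y, z), (p.parts.count (x + y + z), p.parts.count (x + y), p.parts.count x)),
      ?_, ?_⟩
    · rw [mem_S3]
      refine ⟨⟨hx1, hy1, hz1⟩, ⟨Multiset.one_le_count_iff_mem.mpr m2,
        Multiset.one_le_count_iff_mem.mpr m1, Multiset.one_le_count_iff_mem.mpr m0⟩, ?_⟩
      refine Eq.trans ?_ hsum
      ring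
    · apply Nat.Partition.ext
      simp only [mk3]
      exact hsub.symm

/-! ### Self-conjugate partitions -/

/-- the solutions of `(x + y)² + 2 x z = n` -/
def Sc (n : ℕ) : Finset (ℕ × ℕ × ℕ) :=
  (Icc 1 n ×ˢ (Icc 1 n ×ˢ Icc 1 n)).filter
    (fun q => (q.1 + q.2.1) * (q.1 + q.2.1) + 2 * (q.1 * q.2.2) = n)

theorem mem_Sc {n x y z : ℕ} : (x, y, z) ∈ Sc n ↔
    1 ≤ x ∧ 1 ≤ y ∧ 1 ≤ z ∧ (x + y) * (x + y) + 2 * (x * z) = n := by
  unfold Sc
  simp only [mem_filter, mem_product, mem_Icc]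
  constructor
  · rintro ⟨⟨⟨h1, _⟩, ⟨h2, _⟩, ⟨h3, _⟩⟩, h⟩
    exact ⟨h1, h2, h3, h⟩
  · rintro ⟨h1, h2, h3, h⟩
    have e1 : x + y ≤ (x + y) * (x + y) := Nat.le_mul_of_pos_right _ (by omega)
    have e2 : z ≤ x * z := Nat.le_mul_of_pos_left _ h1
    refine ⟨⟨⟨h1, ?_⟩, ⟨h2, ?_⟩, ⟨h3, ?_⟩⟩, h⟩ <;> omega

/-- **Conjugation.** -/
theorem nu_three_parity (n : ℕ) : ((nu 3 n : ℕ) : ZMod 2) = (((Sc n).card : ℕ) : ZMod 2) := by
  classical
  rw [nu_three, parity_invol (S3 n) Prod.swap]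
  · refine congrArg (fun m : ℕ => (m : ZMod 2)) ?_
    apply card_nbij' (fun q => q.1) (fun q => (q, q))
    · rintro ⟨⟨x, y, z⟩, ⟨r, s, t⟩⟩ h
      simp only [coe_filter, Set.mem_ofPred, Prod.swap, Prod.mk.injEq] at h
      obtain ⟨h1, ⟨h2, h3, h4⟩, _⟩ := h
      subst h2 h3 h4
      rw [mem_S3] at h1
      rw [mem_coe, mem_Sc]
      refine ⟨h1.1.1, h1.1.2.1, h1.1.2.2, ?_⟩
      rw [← h1.2.2]; ring
    · rintro ⟨x, y, z⟩ h
      rw [mem_coe, mem_Sc] at h
      simp only [coe_filter, Set.mem_ofPred, Prod.swap, and_true]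
      rw [mem_S3]
      refine ⟨⟨h.1, h.2.1, h.2.2.1⟩, ⟨h.1, h.2.1, h.2.2.1⟩, ?_⟩
      rw [← h.2.2.2]; ring
    · rintro ⟨⟨x, y, z⟩, ⟨r, s, t⟩⟩ h
      simp only [coe_filter, Set.mem_ofPred, Prod.swap, Prod.mk.injEq] at h
      obtain ⟨h1, ⟨h2, h3, h4⟩, _⟩ := h
      subst h2 h3 h4
      rfl
    · rintro ⟨x, y, z⟩ _
      rfl
  · rintro ⟨⟨x, y, z⟩, ⟨r, s, t⟩⟩ h
    rw [mem_S3] at h
    simp only [Prod.swap]
    rw [mem_S3]
    refine ⟨h.2.1, h.1, ?_⟩
    rw [← h.2.2]; ring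
  · rintro ⟨⟨x, y, z⟩, ⟨r, s, t⟩⟩ _
    rfl

/-! ### Sums of a square and a product -/

/-- the solutions of `a² + b (b + 2 f) = n` -/
def G (n : ℕ) : Finset (ℕ × ℕ × ℕ) :=
  (Icc 1 n ×ˢ (Icc 1 n ×ˢ Icc 1 n)).filter
    (fun q => q.1 * q.1 + q.2.1 * (q.2.1 + 2 * q.2.2) = n)

theorem mem_G {n a b f : ℕ} : (a, b, f) ∈ G n ↔
    1 ≤ a ∧ 1 ≤ b ∧ 1 ≤ f ∧ a * a + b * (b + 2 * f) = n := by
  unfold G
  simp only [mem_filter, mem_product, mem_Icc]
  constructor
  · rintro ⟨⟨⟨h1, _⟩, ⟨h2, _⟩, ⟨h3, _⟩⟩, h⟩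
    exact ⟨h1, h2, h3, h⟩
  · rintro ⟨h1, h2, h3, h⟩
    have e1 : a ≤ a * a := Nat.le_mul_of_pos_right _ h1
    have e2 : b + 2 * f ≤ b * (b + 2 * f) := Nat.le_mul_of_pos_left _ h2
    refine ⟨⟨⟨h1, ?_⟩, ⟨h2, ?_⟩, ⟨h3, ?_⟩⟩, h⟩ <;> omega

/-- The part `f > a` of `G` has the same number of elements as `Sc`. -/
theorem card_gt (n : ℕ) : ((G n).filter (fun q => q.1 < q.2.2)).card = (Sc n).card := by
  classical
  apply card_nbij' (fun q => (q.2.1, q.1, q.2.2 - q.1)) (fun q => (q.2.1, q.1, q.2.1 + q.2.2))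
  · rintro ⟨a, b, f⟩ h
    simp only [coe_filter, Set.mem_ofPred] at h
    obtain ⟨h1, h2⟩ := h
    rw [mem_G] at h1
    simp only
    rw [mem_coe, mem_Sc]
    obtain ⟨g, rfl⟩ : ∃ g, f = a + g := ⟨f - a, by omega⟩
    rw [show a + g - a = g by omega]
    refine ⟨h1.2.1, h1.1, by omega, ?_⟩
    rw [← h1.2.2.2]; ring
  · rintro ⟨x, y, z⟩ h
    rw [mem_coe, mem_Sc] at h
    simp only [coe_filter, Set.mem_ofPred]
    rw [mem_G]
    refine ⟨⟨h.2.1, h.1, by omega, ?_⟩, by omega⟩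
    rw [← h.2.2.2]; ring
  · rintro ⟨a, b, f⟩ h
    simp only [coe_filter, Set.mem_ofPred] at h
    simp only [Prod.mk.injEq, true_and]
    omega
  · rintro ⟨x, y, z⟩ _
    simp only [Prod.mk.injEq, true_and]
    omega

/-- The part `f < a` of `G` has an even number of elements if `2 a² - f² = n` has no solution. -/
theorem card_lt {n : ℕ} (hn : ∀ a f : ℕ, 2 * (a * a) ≠ n + f * f) :
    ((((G n).filter (fun q => q.2.2 < q.1)).card : ℕ) : ZMod 2) = 0 := by
  classical
  rw [parity_invol _ (fun q : ℕ × ℕ × ℕ => (q.2.1 + q.2.2, q.1 - q.2.2, q.2.2))]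
  · have : (((G n).filter (fun q => q.2.2 < q.1)).filter
        (fun q : ℕ × ℕ × ℕ => (q.2.1 + q.2.2, q.1 - q.2.2, q.2.2) = q)) = ∅ := by
      rw [Finset.filter_eq_empty_iff]
      rintro ⟨a, b, f⟩ h he
      simp only [mem_filter] at h
      rw [mem_G] at h
      simp only [Prod.mk.injEq] at he
      obtain ⟨⟨h1, h2, h3, h4⟩, h5⟩ := h
      obtain ⟨h6, h7, _⟩ := he
      subst h6
      apply hn (b + f) f
      rw [← h4]; ring
    rw [this, card_empty]
    rfl
  · rintro ⟨a, b, f⟩ h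
    simp only [mem_filter] at h ⊢
    rw [mem_G] at h ⊢
    obtain ⟨⟨h1, h2, h3, h4⟩, h5⟩ := h
    obtain ⟨g, rfl⟩ : ∃ g, a = f + g := ⟨a - f, by omega⟩
    rw [show f + g - f = g by omega]
    refine ⟨⟨by omega, by omega, h3, ?_⟩, by omega⟩
    rw [← h4]; ring
  · rintro ⟨a, b, f⟩ h
    simp only [mem_filter] at h
    rw [mem_G] at h
    simp only [Prod.mk.injEq, and_true]
    omega

/-- the part `f = a` is empty if `n` is not a square -/
theorem card_eq' {n : ℕ} (hn : ∀ a : ℕ, a * a ≠ n) :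
    ((G n).filter (fun q => q.2.2 = q.1)) = ∅ := by
  rw [Finset.filter_eq_empty_iff]
  rintro ⟨a, b, f⟩ h he
  rw [mem_G] at h
  simp only at he
  subst he
  apply hn (b + f)
  rw [← h.2.2.2]; ring

theorem Sc_G {n : ℕ} (h1 : ∀ a f : ℕ, 2 * (a * a) ≠ n + f * f) (h2 : ∀ a : ℕ, a * a ≠ n) :
    (((Sc n).card : ℕ) : ZMod 2) = (((G n).card : ℕ) : ZMod 2) := by
  classical
  rw [← card_gt]
  rw [← Finset.card_filter_add_card_filter_not (s := G n) (fun q => q.1 < q.2.2)]
  rw [← Finset.card_filter_add_card_filter_not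
    (s := (G n).filter (fun q => ¬ q.1 < q.2.2)) (fun q => q.2.2 = q.1)]
  have e1 : (((G n).filter (fun q => ¬ q.1 < q.2.2)).filter (fun q => q.2.2 = q.1)) = ∅ := by
    rw [filter_filter]
    have := card_eq' h2
    rw [Finset.filter_eq_empty_iff] at this ⊢
    exact fun q hq h => this hq h.2
  have e2 : (((G n).filter (fun q => ¬ q.1 < q.2.2)).filter (fun q => ¬ q.2.2 = q.1)) =
      (G n).filter (fun q => q.2.2 < q.1) := by
    rw [filter_filter]
    apply filter_congr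
    intro q _
    omega
  rw [e1, e2, card_empty, zero_add]
  push_cast
  rw [card_lt h1, add_zero]

/-- `G` in terms of divisor pairs -/
theorem G_card {n : ℕ} (hn : n % 4 = 2) :
    (G n).card = ∑ a ∈ (Icc 1 n).filter (fun a => ¬ a % 2 = 0), e (n - a * a) := by
  classical
  unfold G
  rw [card_filter_prod, ← Finset.sum_filter_add_sum_filter_not (Icc 1 n) (fun a => a % 2 = 0)]
  have hz : ∑ a ∈ (Icc 1 n).filter (fun a => a % 2 = 0),
      (((Icc 1 n ×ˢ Icc 1 n).filter (fun b : ℕ × ℕ => a * a + b.1 * (b.1 + 2 * b.2) = n)).card) =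
      0 := by
    apply Finset.sum_eq_zero
    intro a ha
    rw [mem_filter] at ha
    rw [Finset.card_eq_zero, Finset.filter_eq_empty_iff]
    rintro ⟨b, f⟩ _ he
    simp only at he
    obtain ⟨c, rfl⟩ : ∃ c, a = 2 * c := ⟨a / 2, by omega⟩
    have e4 : 2 * c * (2 * c) = 4 * (c * c) := by ring
    rw [e4] at he
    rcases Nat.even_or_odd' b with ⟨d, hd | hd⟩
    · subst hd
      have e5 : 2 * d * (2 * d + 2 * f) = 4 * (d * (d + f)) := by ring
      omega
    · subst hd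
      have e5 : (2 * d + 1) * (2 * d + 1 + 2 * f) = 2 * (2 * d * d + 2 * d + 2 * d * f + f) + 1 := by
        ring
      omega
  rw [hz, zero_add]
  apply Finset.sum_congr rfl
  intro a ha
  rw [mem_filter, mem_Icc] at ha
  obtain ⟨⟨ha1, ha2⟩, ha3⟩ := ha
  unfold e
  apply card_nbij' (fun t => (t.1, t.1 + 2 * t.2)) (fun t => (t.1, (t.2 - t.1) / 2))
  · rintro ⟨b, f⟩ h
    simp only [coe_filter, Set.mem_ofPred, mem_product, mem_Icc, Nat.mem_divisorsAntidiagonal]
      at h ⊢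
    obtain ⟨⟨⟨h1, h2⟩, h3, h4⟩, h5⟩ := h
    have e1 : 1 ≤ b * (b + 2 * f) := Nat.mul_pos h1 (by omega)
    omega
  · rintro ⟨x, y⟩ h
    simp only [coe_filter, Set.mem_ofPred, mem_product, mem_Icc, Nat.mem_divisorsAntidiagonal]
      at h ⊢
    obtain ⟨⟨h1, h2⟩, h3⟩ := h
    have hx1 : 1 ≤ x := by
      rcases Nat.eq_zero_or_pos x with rfl | h
      · rw [zero_mul] at h1; omega
      · exact h
    obtain ⟨b, hb⟩ : ∃ b, a = 2 * b + 1 := ⟨a / 2, by omega⟩
    have e4 : a * a = 4 * (b * b + b) + 1 := by rw [hb]; ring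
    have hxy : x * y % 2 = 1 := by omega
    have hx : x % 2 = 1 := by
      rcases Nat.mod_two_eq_zero_or_one x with h | h
      · rw [Nat.mul_mod, h, zero_mul, Nat.zero_mod] at hxy; omega
      · exact h
    have hy : y % 2 = 1 := by
      rcases Nat.mod_two_eq_zero_or_one y with h | h
      · rw [Nat.mul_mod, h, mul_zero, Nat.zero_mod] at hxy; omega
      · exact h
    have e6 : y ≤ x * y := Nat.le_mul_of_pos_left _ hx1
    have e7 : x + 2 * ((y - x) / 2) = y := by omega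
    refine ⟨⟨⟨hx1, ?_⟩, ?_, ?_⟩, ?_⟩
    · omega
    · omega
    · omega
    · rw [e7]; omega
  · rintro ⟨b, f⟩ _
    simp only [Prod.mk.injEq, true_and]
    omega
  · rintro ⟨x, y⟩ h
    simp only [coe_filter, Set.mem_ofPred, Nat.mem_divisorsAntidiagonal] at h
    obtain ⟨⟨h1, h2⟩, h3⟩ := h
    obtain ⟨b, hb⟩ : ∃ b, a = 2 * b + 1 := ⟨a / 2, by omega⟩
    have e4 : a * a = 4 * (b * b + b) + 1 := by rw [hb]; ring
    have hxy : x * y % 2 = 1 := by omega
    have hx : x % 2 = 1 := by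
      rcases Nat.mod_two_eq_zero_or_one x with h | h
      · rw [Nat.mul_mod, h, zero_mul, Nat.zero_mod] at hxy; omega
      · exact h
    have hy : y % 2 = 1 := by
      rcases Nat.mod_two_eq_zero_or_one y with h | h
      · rw [Nat.mul_mod, h, mul_zero, Nat.zero_mod] at hxy; omega
      · exact h
    simp only [Prod.mk.injEq, true_and]
    omega

theorem G_even {N : ℕ} (hN : N % 2 = 1)
    (hns : ∀ x y : ℕ, 1 ≤ x → 1 ≤ y → x * x + y * y ≠ 2 * N)
    (hnt : ∀ x y : ℕ, x * x + 2 * (y * y) ≠ N) :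
    (((G (2 * N)).card : ℕ) : ZMod 2) = 0 := by
  classical
  rw [G_card (by omega)]
  have h1 := E_even hN hns
  unfold E at h1
  rw [← Finset.sum_filter_add_sum_filter_not (Icc 1 (2 * N)) (fun a => a % 2 = 0),
    Nat.cast_add] at h1
  have h2 : ((∑ a ∈ (Icc 1 (2 * N)).filter (fun a => a % 2 = 0), e (2 * N - a * a) : ℕ) :
      ZMod 2) = 0 := by
    rw [Nat.cast_sum]
    apply Finset.sum_eq_zero
    intro a ha
    rw [mem_filter] at ha
    obtain ⟨b, rfl⟩ : ∃ b, a = 2 * b := ⟨a / 2, by omega⟩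
    have e4 : 2 * b * (2 * b) = 4 * (b * b) := by ring
    rw [e4]
    by_cases hlt : 4 * (b * b) < 2 * N
    · have e1 : 2 * N - 4 * (b * b) = 2 * (N - 2 * (b * b)) := by omega
      rw [e1, e_two (by omega), s_eq_zero, Nat.cast_zero]
      intro x _ hx
      exact hnt x b (by omega)
    · have e1 : 2 * N - 4 * (b * b) = 0 := by omega
      rw [e1, e_zero, Nat.cast_zero]
  rw [h2, zero_add] at h1
  exact h1

/-- **The parity of `ν₃`.** -/
theorem two_dvd_nu {N : ℕ} (hN : N % 2 = 1)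
    (hns : ∀ x y : ℕ, 1 ≤ x → 1 ≤ y → x * x + y * y ≠ 2 * N)
    (hnt : ∀ x y : ℕ, x * x + 2 * (y * y) ≠ N)
    (hnu : ∀ a f : ℕ, 2 * (a * a) ≠ 2 * N + f * f) : 2 ∣ nu 3 (2 * N) := by
  rw [← cast_eq_zero_iff_even, nu_three_parity, Sc_G hnu, G_even hN hns hnt]
  intro a ha
  rcases Nat.even_or_odd' a with ⟨b, rfl | rfl⟩
  · have : 2 * b * (2 * b) = 4 * (b * b) := by ring
    omega
  · have : (2 * b + 1) * (2 * b + 1) = 2 * (2 * (b * b) + 2 * b) + 1 := by ring
    omega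

end Pool.Agent.K1H6.Nu3
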